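import Pool.Agent.Lib.MP_c7af3c_ag.T2C.H53.Beta
import Pool.Agent.Lib.MP_c7af3c_ag.T2C.H6.Kro

/-!
# MP_c7af3c_ag, project T2C, row BETA (helper53, helper6, helper49)
-/

set_option autoImplicit false

namespace Pool.Agent.T2C.H53

/-- Row BETA. -/
theorem beta : BetaStatement := beta_of H6.kro

end Pool.Agent.T2C.H53
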