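import Pool.Agent.Lib.MP_c7af3c_ag.T2C.BetaI

/-!
# MP_c7af3c_ag, project T2C, row BETA, sub-row ALG (helper53)
See T2C/PaperBeta.md, section 2.
-/

set_option autoImplicit false

namespace Pool.Agent.T2C.H53

section

variable {K : Type} [Field K] {U : Type} [AddCommGroup U] [Module K U]

/-- a functional which separates a vector from a line -/
theorem sep {a w : U} (h : w ∉ Submodule.span K {a}) :
    ∃ s : U →ₗ[K] K, s a = 0 ∧ s w ≠ 0 := by
  obtain ⟨s, hs, hs'⟩ := Submodule.exists_le_ker_of_notMem h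
  exact ⟨s, LinearMap.mem_ker.1 (hs' (Submodule.mem_span_singleton_self a)), hs⟩

/-- two functionals, one with a joint property -/
theorem both {s₁ s₂ : U →ₗ[K] K} {a w : U} (h₁ : s₁ a ≠ 0) (h₂ : s₂ w ≠ 0) :
    ∃ s : U →ₗ[K] K, (s = s₁ ∨ s = s₂ ∨ s = s₁ + s₂) ∧ s a ≠ 0 ∧ s w ≠ 0 := by
  by_cases h3 : s₁ w = 0
  · by_cases h4 : s₂ a = 0
    · refine ⟨s₁ + s₂, Or.inr (Or.inr rfl), ?_, ?_⟩
      · rw [LinearMap.add_apply, h4, add_zero]
        exact h₁
      · rw [LinearMap.add_apply, h3, zero_add]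
        exact h₂
    · exact ⟨s₂, Or.inr (Or.inl rfl), h4, h₂⟩
  · exact ⟨s₁, Or.inl rfl, h₁, h3⟩

theorem ne_sep {a : U} (h : a ≠ 0) : ∃ s : U →ₗ[K] K, s a ≠ 0 := by
  obtain ⟨s, -, hs⟩ := sep (K := K) (a := (0 : U)) (w := a) (by
    rw [Submodule.mem_span_singleton]
    rintro ⟨r, hr⟩
    exact h (by rw [← hr, smul_zero]))
  exact ⟨s, hs⟩

variable {S : Type} [AddCommGroup S] [Module K S]

/-- step (a) -/
theorem step_a (v : Fin 2 → S →ₗ[K] U)
    (rk : ∀ a : Fin 2 → K, a ≠ 0 → ∀ u : U, ∃ A, a 0 • v 0 A + a 1 • v 1 A ∉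
      Submodule.span K {u}) :
    ∃ (s : U →ₗ[K] K) (A A' : S), s (v 0 A) * s (v 1 A') - s (v 1 A) * s (v 0 A') ≠ 0 := by
  by_contra hcon
  push Not at hcon
  have h0 : ∀ u : U, ∃ A, v 0 A ∉ Submodule.span K {u} := by
    intro u
    obtain ⟨A, hA⟩ := rk ![1, 0] (fun h => one_ne_zero (congrFun h 0)) u
    refine ⟨A, ?_⟩
    simpa using hA
  have h1 : ∀ A, v 0 A ≠ 0 → v 1 A ∈ Submodule.span K {v 0 A} := by
    intro A hA
    by_contra hc
    obtain ⟨s, hs, hs'⟩ := sep hc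
    obtain ⟨A', hA'⟩ := h0 (v 0 A)
    obtain ⟨s₁, hs₁, hs₁'⟩ := sep hA'
    obtain ⟨s₂, hs₂, h3, h4⟩ := both hs' hs₁'
    have h5 : s₂ (v 0 A) = 0 := by
      rcases hs₂ with h | h | h
      · rw [h, hs]
      · rw [h, hs₁]
      · rw [h, LinearMap.add_apply, hs, hs₁, add_zero]
    have h6 := hcon s₂ A A'
    rw [h5, zero_mul, zero_sub, neg_eq_zero, mul_eq_zero] at h6
    rcases h6 with h6 | h6
    · exact h3 h6
    · exact h4 h6
  obtain ⟨A, hA⟩ := h0 0
  have hA0 : v 0 A ≠ 0 := fun h => hA (by rw [h]; exact Submodule.zero_mem _)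
  obtain ⟨g, hg⟩ := Submodule.mem_span_singleton.1 (h1 A hA0)
  have h2 : ∀ B, v 1 B = g • v 0 B := by
    intro B
    by_contra hc
    obtain ⟨s₁, hs₁⟩ := ne_sep (K := K) hA0
    obtain ⟨s₂, hs₂⟩ := ne_sep (K := K) (sub_ne_zero.2 hc)
    obtain ⟨s, -, h3, h4⟩ := both hs₁ hs₂
    have h5 := hcon s A B
    rw [← hg, map_smul, smul_eq_mul] at h5
    rw [map_sub, map_smul, smul_eq_mul] at h4
    have h6 : s (v 0 A) * (s (v 1 B) - g * s (v 0 B)) = 0 := by
      rw [← h5]; ring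
    rcases mul_eq_zero.1 h6 with h | h
    · exact h3 h
    · exact h4 h
  obtain ⟨B, hB⟩ := rk ![g, -1] (fun h => by
    have := congrFun h 1
    simp at this) 0
  apply hB
  have : (![g, -1] : Fin 2 → K) 0 • v 0 B + (![g, -1] : Fin 2 → K) 1 • v 1 B = 0 := by
    rw [h2 B]
    simp
  rw [this]
  exact Submodule.zero_mem _

end

theorem alg : AlgStatement := by
  intro K _ S U ι _ _ _ _ v b hb rk
  obtain ⟨s, A₀, A₁, hd⟩ := step_a v rk
  by_cases hz : ∀ f i f' A, b f i f' A = 0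
  · exact Or.inl hz
  right
  -- elements of `N`
  have hN : ∀ B, s (v 0 B) = 0 → s (v 1 B) = 0 → ∀ f f', b f 0 f' B = 0 ∧ b f 1 f' B = 0 := by
    intro B h0 h1 f f'
    have e0 := congrArg s (hb f f' A₀ B)
    have e1 := congrArg s (hb f f' A₁ B)
    simp only [map_add, map_smul, smul_eq_mul, h0, h1, mul_zero, add_zero] at e0 e1
    constructor
    · have : b f 0 f' B * (s (v 0 A₀) * s (v 1 A₁) - s (v 1 A₀) * s (v 0 A₁)) = 0 := by
        linear_combination s (v 1 A₁) * e0 - s (v 1 A₀) * e1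
      exact (mul_eq_zero.1 this).resolve_right hd
    · have : b f 1 f' B * (s (v 0 A₀) * s (v 1 A₁) - s (v 1 A₀) * s (v 0 A₁)) = 0 := by
        linear_combination s (v 0 A₀) * e1 - s (v 0 A₁) * e0
      exact (mul_eq_zero.1 this).resolve_right hd
  -- two independent vectors `b`
  have hdet : ∃ f f' A g g' A', b f 0 f' A * b g 1 g' A' - b f 1 f' A * b g 0 g' A' ≠ 0 := by
    by_contra hc
    push Not at hc
    push Not at hz
    obtain ⟨f, i, f', A', hne⟩ := hz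
    have hm : (fun i => b f i f' A') ≠ 0 := fun h => hne (congrFun h i)
    obtain ⟨A, hA⟩ := rk _ hm (b f 0 f' A' • v 0 A' + b f 1 f' A' • v 1 A')
    apply hA
    show b f 0 f' A' • v 0 A + b f 1 f' A' • v 1 A ∈ _
    rw [hb f f' A A', Submodule.mem_span_singleton]
    have h1 := hc f f' A' f' f A
    by_cases h0 : b f 0 f' A' = 0
    · have h2 : b f 1 f' A' ≠ 0 := by
        intro h2
        apply hne
        fin_cases i
        · exact h0
        · exact h2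
      refine ⟨b f' 1 f A / b f 1 f' A', ?_⟩
      rw [h0, zero_mul, zero_sub, neg_eq_zero, mul_eq_zero] at h1
      rw [h0, h1.resolve_left h2]
      simp only [zero_smul, zero_add]
      rw [smul_smul, div_mul_cancel₀ _ h2]
    · refine ⟨b f' 0 f A / b f 0 f' A', ?_⟩
      have h3 : b f' 0 f A / b f 0 f' A' * b f 1 f' A' = b f' 1 f A := by
        rw [div_mul_eq_mul_div, div_eq_iff h0]
        linear_combination -h1
      rw [smul_add, smul_smul, smul_smul, div_mul_cancel₀ _ h0, h3]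
  obtain ⟨f, f', A, g, g', A', hdt⟩ := hdet
  have hv : ∀ B, s (v 0 B) = 0 → s (v 1 B) = 0 → v 0 B = 0 ∧ v 1 B = 0 := by
    intro B h0 h1
    have e0 := hb f' f A B
    have e1 := hb g' g A' B
    rw [(hN B h0 h1 f' f).1, (hN B h0 h1 f' f).2] at e0
    rw [(hN B h0 h1 g' g).1, (hN B h0 h1 g' g).2] at e1
    simp only [zero_smul, zero_add] at e0 e1
    constructor
    · have : (b f 0 f' A * b g 1 g' A' - b f 1 f' A * b g 0 g' A') • v 0 B = 0 := by
        calc _ = b g 1 g' A' • (b f 0 f' A • v 0 B + b f 1 f' A • v 1 B) -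
            b f 1 f' A • (b g 0 g' A' • v 0 B + b g 1 g' A' • v 1 B) := by module
          _ = 0 := by rw [← e0, ← e1, smul_zero, smul_zero, sub_zero]
      exact (smul_eq_zero.1 this).resolve_left hdt
    · have : (b f 0 f' A * b g 1 g' A' - b f 1 f' A * b g 0 g' A') • v 1 B = 0 := by
        calc _ = b f 0 f' A • (b g 0 g' A' • v 0 B + b g 1 g' A' • v 1 B) -
            b g 0 g' A' • (b f 0 f' A • v 0 B + b f 1 f' A • v 1 B) := by module
          _ = 0 := by rw [← e0, ← e1, smul_zero, smul_zero, sub_zero]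
      exact (smul_eq_zero.1 this).resolve_left hdt
  refine ⟨A₀, A₁, fun B => ?_⟩
  -- coordinates of `B`
  have hd' : s (v 0 A₀) * s (v 1 A₁) - s (v 1 A₀) * s (v 0 A₁) ≠ 0 := hd
  set Δ := s (v 0 A₀) * s (v 1 A₁) - s (v 1 A₀) * s (v 0 A₁) with hΔ
  set α := (s (v 0 B) * s (v 1 A₁) - s (v 1 B) * s (v 0 A₁)) / Δ with hα
  set β := (s (v 0 A₀) * s (v 1 B) - s (v 1 A₀) * s (v 0 B)) / Δ with hβ
  have hαΔ : α * Δ = s (v 0 B) * s (v 1 A₁) - s (v 1 B) * s (v 0 A₁) :=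
    div_mul_cancel₀ _ hd'
  have hβΔ : β * Δ = s (v 0 A₀) * s (v 1 B) - s (v 1 A₀) * s (v 0 B) :=
    div_mul_cancel₀ _ hd'
  have k0 : s (v 0 (B - α • A₀ - β • A₁)) = 0 := by
    have : Δ * s (v 0 (B - α • A₀ - β • A₁)) = 0 := by
      simp only [map_sub, map_smul, smul_eq_mul]
      linear_combination (-s (v 0 A₀)) * hαΔ - s (v 0 A₁) * hβΔ + s (v 0 B) * hΔ
    exact (mul_eq_zero.1 this).resolve_left hd'
  have k1 : s (v 1 (B - α • A₀ - β • A₁)) = 0 := by
    have : Δ * s (v 1 (B - α • A₀ - β • A₁)) = 0 := by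
      simp only [map_sub, map_smul, smul_eq_mul]
      linear_combination (-s (v 1 A₀)) * hαΔ - s (v 1 A₁) * hβΔ + s (v 1 B) * hΔ
    exact (mul_eq_zero.1 this).resolve_left hd'
  obtain ⟨z0, z1⟩ := hv _ k0 k1
  refine ⟨α, β, fun i => ?_⟩
  have hi : v i (B - α • A₀ - β • A₁) = 0 := by
    fin_cases i
    · exact z0
    · exact z1
  rw [map_sub, map_sub, map_smul, map_smul, sub_sub, sub_eq_zero] at hi
  exact hi

end Pool.Agent.T2C.H53
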