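import Pool.Agent.Lib.MP_c7af3c_ag.T2C.H53.Qua
import Pool.Agent.Lib.MP_c7af3c_ag.T2C.H19.Rs
import Pool.Agent.Lib.MP_c7af3c_ag.T2.H95.Der

/-!
# MP_c7af3c_ag, project T2C, row BETA, sub-row FIN1 (helper53)
See T2C/PaperBeta.md, section 6.
-/

set_option autoImplicit false

namespace Pool.Agent.T2C.H53

open MvPolynomial Pool.Agent.Gen Pool.Agent.Sharp Pool.Agent.Edge
open Pool.Agent.Sharp.H75 (dco DG dco_pderiv eval_dco dco_F)
open Pool.Agent.T2 (Rac)

/-! ### derivations -/

section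

variable {K : Type} [Field K] {n : ℕ} (δ : Derivation ℤ K K)

theorem der_ev (F : MvPolynomial (Fin (n + 1)) K) (z : Fin (n + 1) → K) :
    δ (eval z F) = eval z (dco δ F) + bf F z (fun p => δ (z p)) := by
  rw [eval_dco]
  exact H12.der_eval δ z F

/-- the second derivative -/
noncomputable def sf (H : MvPolynomial (Fin (n + 1)) K) (x ξ η : Fin (n + 1) → K) : K :=
  ∑ q, bf (pderiv q H) x ξ * η q

theorem der_pd (F : MvPolynomial (Fin (n + 1)) K) (z : Fin (n + 1) → K) (q : Fin (n + 1)) :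
    δ (eval z (pderiv q F)) = eval z (pderiv q (dco δ F)) +
      bf (pderiv q F) z (fun p => δ (z p)) := by
  rw [der_ev, dco_pderiv]

/-- a linear form -/
theorem bf_lin1 {l : MvPolynomial (Fin (n + 1)) K} (hl : l.IsHomogeneous 1)
    (z v : Fin (n + 1) → K) : bf l z v = eval v l := by
  have h1 : ∀ p, eval z (pderiv p l) = coeff (Finsupp.single p 1) l := by
    intro p
    conv_lhs => rw [lin_rep hl]
    rw [map_sum, map_sum, Finset.sum_eq_single p]
    · rw [pderiv_C_mul, pderiv_X_self, mul_one, eval_C]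
    · intro j _ hj
      rw [pderiv_C_mul, pderiv_X_of_ne hj, mul_zero, map_zero]
    · intro h
      exact absurd (Finset.mem_univ p) h
  unfold bf
  rw [lin_eval hl]
  exact Finset.sum_congr rfl fun p _ => by rw [h1]

/-- the derivative of the equations `F_a'(x) = b(u_a, ·)` -/
theorem der_u {F Fa : MvPolynomial (Fin (n + 1)) K} (hF : F.IsHomogeneous 2)
    {x ua : Fin (n + 1) → K} (h : ∀ q, eval x (pderiv q Fa) = eval ua (pderiv q F))
    (w : Fin (n + 1) → K) :
    bf (dco δ Fa) x w + sf Fa x (fun p => δ (x p)) w =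
      bf (dco δ F) ua w + bf F (fun p => δ (ua p)) w := by
  unfold sf
  unfold bf at *
  rw [← Finset.sum_add_distrib, ← Finset.sum_add_distrib]
  refine Finset.sum_congr rfl fun q _ => ?_
  have h1 := congrArg δ (h q)
  rw [der_pd, der_pd, bf_lin1 (hF.pderiv (i := q))] at h1
  rw [← add_mul, ← add_mul]
  congr 1

theorem der_bf {F : MvPolynomial (Fin (n + 1)) K} (hF : F.IsHomogeneous 2)
    (u w : Fin (n + 1) → K) :
    δ (bf F u w) = bf (dco δ F) u w + bf F (fun p => δ (u p)) w + bf F u (fun p => δ (w p)) := by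
  unfold bf
  rw [map_sum, ← Finset.sum_add_distrib, ← Finset.sum_add_distrib]
  refine Finset.sum_congr rfl fun q _ => ?_
  rw [Derivation.leibniz, der_pd, bf_lin1 (hF.pderiv (i := q))]
  simp only [smul_eq_mul]
  ring

/-- the main identity -/
theorem der_main {F Fa Fb : MvPolynomial (Fin (n + 1)) K} (hF : F.IsHomogeneous 2)
    {x ua ub : Fin (n + 1) → K} (ha : ∀ q, eval x (pderiv q Fa) = eval ua (pderiv q F))
    (hb : ∀ q, eval x (pderiv q Fb) = eval ub (pderiv q F)) (h0 : bf F ua ub = 0) :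
    sf Fa x (fun p => δ (x p)) ub + sf Fb x (fun p => δ (x p)) ua =
      bf (dco δ F) ub ua - bf (dco δ Fa) x ub - bf (dco δ Fb) x ua := by
  have h1 := der_u δ hF ha ub
  have h2 := der_u δ hF hb ua
  have h3 := der_bf δ hF ua ub
  rw [h0, map_zero] at h3
  have h4 := bf_symm hF ua (fun p => δ (ub p))
  linear_combination h1 + h2 - h3 - h4

/-- a linear form of derivatives -/
theorem sf_x {H : MvPolynomial (Fin (n + 1)) K} {e : ℕ} (hH : H.IsHomogeneous (e + 1))
    (x w : Fin (n + 1) → K) : sf H x x w = e * bf H x w := by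
  unfold sf
  conv_rhs => unfold bf
  rw [Finset.mul_sum]
  refine Finset.sum_congr rfl fun q _ => ?_
  have h1 : (pderiv q H).IsHomogeneous e := by
    have := hH.pderiv (i := q)
    rwa [Nat.add_sub_cancel] at this
  rw [bf_self h1]
  ring

theorem bf_mul (A B : MvPolynomial (Fin (n + 1)) K) (u v : Fin (n + 1) → K) :
    bf (A * B) u v = eval u A * bf B u v + eval u B * bf A u v := by
  unfold bf
  rw [Finset.mul_sum, Finset.mul_sum, ← Finset.sum_add_distrib]
  refine Finset.sum_congr rfl fun p _ => ?_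
  rw [Derivation.leibniz, map_add]
  simp only [smul_eq_mul, map_mul]
  ring

theorem bf_add (A B : MvPolynomial (Fin (n + 1)) K) (u v : Fin (n + 1) → K) :
    bf (A + B) u v = bf A u v + bf B u v := by
  unfold bf
  rw [← Finset.sum_add_distrib]
  refine Finset.sum_congr rfl fun p _ => ?_
  rw [map_add, map_add, add_mul]

theorem bf_C (a : K) (A : MvPolynomial (Fin (n + 1)) K) (u v : Fin (n + 1) → K) :
    bf (C a * A) u v = a * bf A u v := by
  rw [bf_mul, eval_C]
  have : bf (C a : MvPolynomial (Fin (n + 1)) K) u v = 0 := by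
    unfold bf
    exact Finset.sum_eq_zero fun p _ => by rw [pderiv_C, map_zero, zero_mul]
  rw [this, mul_zero, add_zero]

theorem bf_C0 (a : K) (u v : Fin (n + 1) → K) :
    bf (C a : MvPolynomial (Fin (n + 1)) K) u v = 0 := by
  unfold bf
  exact Finset.sum_eq_zero fun p _ => by rw [pderiv_C, map_zero, zero_mul]

theorem bf_zero (u v : Fin (n + 1) → K) : bf (0 : MvPolynomial (Fin (n + 1)) K) u v = 0 := by
  unfold bf
  exact Finset.sum_eq_zero fun p _ => by rw [map_zero, map_zero, zero_mul]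

/-- the map `ξ ↦ sf H x ξ w` is linear -/
theorem sf_add (H : MvPolynomial (Fin (n + 1)) K) (x ξ η w : Fin (n + 1) → K) :
    sf H x (ξ + η) w = sf H x ξ w + sf H x η w := by
  unfold sf
  rw [← Finset.sum_add_distrib]
  refine Finset.sum_congr rfl fun q _ => ?_
  rw [← add_mul]
  congr 1
  unfold bf
  rw [← Finset.sum_add_distrib]
  exact Finset.sum_congr rfl fun p _ => by rw [Pi.add_apply, mul_add]

theorem sf_smul (H : MvPolynomial (Fin (n + 1)) K) (x ξ w : Fin (n + 1) → K) (a : K) :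
    sf H x (a • ξ) w = a * sf H x ξ w := by
  unfold sf
  rw [Finset.mul_sum]
  refine Finset.sum_congr rfl fun q _ => ?_
  rw [← mul_assoc]
  congr 1
  unfold bf
  rw [Finset.mul_sum]
  exact Finset.sum_congr rfl fun p _ => by rw [Pi.smul_apply, smul_eq_mul]; ring

end

section

variable {Ω : Type} [Field Ω] {n c : ℕ} {d : Fin c → ℕ} {D : DSys Ω n c d}
  {x : Fin (n + 1) → Ω} {j0 : Fin (n + 1)} {t : Fin (2 + 1) → Fin (n + 1)}
  {P : Fin (2 + 1) → Fin (n + 1) → Ω} {m1 : Fin c}

/-- the functionals `b(P_i, ·)` are independent -/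
theorem indep [CharZero Ω] (hP : LinearIndependent Ω P) (h2 : d m1 = 2) {z : Fin 3 → Ω}
    (h : ∀ v, ∑ i, z i * bf (D.F m1) (P i) v = 0) : z = 0 := by
  classical
  have hF : (D.F m1).IsHomogeneous 2 := by
    have := D.hom m1
    rwa [h2] at this
  set u : Fin (n + 1) → Ω := fun q => ∑ i, z i * P i q with hu
  have h1 : ∀ v, bf (D.F m1) u v = 0 := by
    intro v
    rw [hu, bf_lin_left hF]
    exact h v
  have h3 : ∀ q, eval u (pderiv q (D.F m1)) = 0 := by
    intro q
    have := h1 (Pi.single q 1)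
    unfold bf at this
    rw [Finset.sum_eq_single q] at this
    · simpa using this
    · intro b _ hb
      rw [Pi.single_eq_of_ne hb, mul_zero]
    · intro h; exact absurd (Finset.mem_univ q) h
  -- all quadrics vanish at `u`
  have h4 : ∀ G : MvPolynomial (Fin (n + 1)) Ω, G.IsHomogeneous 2 → eval u G = 0 := by
    intro G hG
    set GT : TP Ω n c := Pi.single m1 G with hGT
    have hGh : H75.Hom d GT := by
      intro m
      by_cases hm : m = m1
      · subst hm
        rw [hGT, Pi.single_eq_same, h2]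
        exact hG
      · rw [hGT, Pi.single_eq_of_ne hm]
        exact isHomogeneous_zero _ _ _
    have h5 : dco (DG D GT) (D.F m1) = G := by
      rw [dco_F D hGh m1, hGT, Pi.single_eq_same]
    have h6 : ∑ q, (eval u (pderiv q G) + bf (pderiv q (D.F m1)) u (fun p => DG D GT (u p))) *
        u q = 0 := by
      refine Finset.sum_eq_zero fun q _ => ?_
      have h7 := congrArg (DG D GT) (h3 q)
      rw [der_pd, h5, map_zero] at h7
      rw [h7, zero_mul]
    simp only [add_mul, Finset.sum_add_distrib] at h6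
    have h8 : ∑ q, bf (pderiv q (D.F m1)) u (fun p => DG D GT (u p)) * u q =
        bf (D.F m1) (fun p => DG D GT (u p)) u := by
      unfold bf
      refine Finset.sum_congr rfl fun q _ => ?_
      congr 1
      exact bf_lin1 (hF.pderiv (i := q)) _ _
    have h9 : ∑ q, eval u (pderiv q G) * u q = bf G u u := rfl
    rw [h8, bf_symm hF, h1, add_zero, h9, bf_self hG] at h6
    have : ((2 : ℕ) : Ω) ≠ 0 := by norm_num
    exact (mul_eq_zero.1 h6).resolve_left this
  have h5 : u = 0 := by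
    funext p
    have h6 := h4 (X p * X p) ((isHomogeneous_X Ω p).mul (isHomogeneous_X Ω p))
    rw [map_mul, eval_X] at h6
    exact mul_self_eq_zero.1 h6
  have h6 := Fintype.linearIndependent_iff.1 hP z (by
    rw [← h5, hu]
    funext q
    rw [Finset.sum_apply]
    exact Finset.sum_congr rfl fun i _ => by rw [Pi.smul_apply, smul_eq_mul])
  funext i
  exact h6 i

/-- the functionals `b(P_i, ·)` -/
noncomputable def Bm (D : DSys Ω n c d) (P : Fin 3 → Fin (n + 1) → Ω) (m1 : Fin c) (i : Fin 3) :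
    (Fin (n + 1) → Ω) →ₗ[Ω] Ω := ∑ p, eval (P i) (pderiv p (D.F m1)) • LinearMap.proj p

theorem Bm_apply (i : Fin 3) (v : Fin (n + 1) → Ω) : Bm D P m1 i v = bf (D.F m1) (P i) v := by
  unfold Bm bf
  rw [LinearMap.sum_apply]
  exact Finset.sum_congr rfl fun p _ => by
    rw [LinearMap.smul_apply, LinearMap.proj_apply, smul_eq_mul]

/-- the functionals `F_m'(x)` -/
noncomputable def Gr (D : DSys Ω n c d) (x : Fin (n + 1) → Ω) (m : Fin c) :
    (Fin (n + 1) → Ω) →ₗ[Ω] Ω := ∑ p, eval x (pderiv p (D.F m)) • LinearMap.proj p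

theorem Gr_apply (m : Fin c) (v : Fin (n + 1) → Ω) : Gr D x m v = bf (D.F m) x v := by
  unfold Gr bf
  rw [LinearMap.sum_apply]
  exact Finset.sum_congr rfl fun p _ => by
    rw [LinearMap.smul_apply, LinearMap.proj_apply, smul_eq_mul]

/-- dimension of the common kernel -/
theorem finrank_ker_pi {V : Type} [AddCommGroup V] [Module Ω V] [Module.Finite Ω V] {r : ℕ}
    (f : Fin r → V →ₗ[Ω] Ω) : Module.finrank Ω V ≤ r +
      Module.finrank Ω (LinearMap.ker (LinearMap.pi f)) := by
  have h1 := LinearMap.finrank_range_add_finrank_ker (LinearMap.pi f)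
  have h2 := Submodule.finrank_le (LinearMap.range (LinearMap.pi f))
  rw [Module.finrank_fin_fun] at h2
  omega

theorem finrank_ker_pi' {V : Type} [AddCommGroup V] [Module Ω V] [Module.Finite Ω V] {r : ℕ}
    (f : Fin r → V →ₗ[Ω] Ω) (hf : LinearIndependent Ω f) :
    Module.finrank Ω (LinearMap.ker (LinearMap.pi f)) + r = Module.finrank Ω V := by
  have h1 := LinearMap.finrank_range_add_finrank_ker (LinearMap.pi f)
  have h2 : LinearMap.range (LinearMap.pi f) = ⊤ := by
    by_contra hne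
    obtain ⟨g, hg, hg'⟩ := Submodule.exists_le_ker_of_lt_top _ (lt_top_iff_ne_top.2 hne)
    apply hg
    have h3 : ∀ v, ∑ i, g (Pi.single i 1) * f i v = 0 := by
      intro v
      have h4 := LinearMap.mem_ker.1 (hg' (LinearMap.mem_range_self (LinearMap.pi f) v))
      have h5 : LinearMap.pi f v = ∑ i, f i v • (Pi.single i 1 : Fin r → Ω) := by
        funext j
        rw [Finset.sum_apply]
        simp [Pi.single_apply]
      rw [h5, map_sum] at h4
      rw [← h4]
      refine Finset.sum_congr rfl fun i _ => ?_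
      rw [map_smul, smul_eq_mul, mul_comm]
    have h4 := Fintype.linearIndependent_iff.1 hf (fun i => g (Pi.single i 1)) (by
      ext v
      rw [LinearMap.sum_apply]
      exact h3 v)
    refine LinearMap.pi_ext' fun i => ?_
    ext
    simpa using h4 i
  rw [h2, finrank_top, Module.finrank_fin_fun] at h1
  omega

/-- the functional `ξ ↦ F_a''(x)(ξ, u_b) + F_b''(x)(ξ, u_a)` -/
noncomputable def SS (Fa Fb : MvPolynomial (Fin (n + 1)) Ω) (x ua ub : Fin (n + 1) → Ω) :
    (Fin (n + 1) → Ω) →ₗ[Ω] Ω where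
  toFun ξ := sf Fa x ξ ub + sf Fb x ξ ua
  map_add' ξ η := by
    rw [sf_add, sf_add]
    ring
  map_smul' a ξ := by
    rw [sf_smul, sf_smul, RingHom.id_apply, smul_eq_mul]
    ring

theorem SS_apply (Fa Fb : MvPolynomial (Fin (n + 1)) Ω) (x ua ub ξ : Fin (n + 1) → Ω) :
    SS Fa Fb x ua ub ξ = sf Fa x ξ ub + sf Fb x ξ ua := rfl

theorem alg_of_rac {k : Subfield Ω} (h : Rac k) (y : Ω) (hy : IsAlgebraic k y) : y ∈ k := by
  obtain ⟨p, hp, hp'⟩ := hy
  refine h y (p.map k.subtype) (fun h0 => hp ?_) (fun i => ?_) ?_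
  · exact (Polynomial.map_eq_zero _).1 h0
  · rw [Polynomial.coeff_map]
    exact (p.coeff i).2
  · rw [Polynomial.eval_map]
    exact hp'

/-- the tuple of test -/
noncomputable def GG (m1 m2 m3 : Fin c) (ξ : Fin 3 → MvPolynomial (Fin (n + 1)) Ω)
    (g : Fin 6 → Ω) : TP Ω n c :=
  let h1 : MvPolynomial (Fin (n + 1)) Ω :=
    C (g 0) * (ξ 0 * ξ 0) + C (g 3) * (ξ 1 * ξ 1) + C (g 4) * (ξ 1 * ξ 2) + C (g 5) * (ξ 2 * ξ 2)
  let h2 : MvPolynomial (Fin (n + 1)) Ω := C (g 1) * (ξ 0 * (ξ 0 * ξ 0))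
  let h3 : MvPolynomial (Fin (n + 1)) Ω := C (g 2) * (ξ 0 * (ξ 0 * ξ 0))
  Pi.single m1 h1 + Pi.single m2 h2 + Pi.single m3 h3

end

/-- the main step, in three equations of degrees `2, 3, 3` in seven variables -/
theorem core {Ω : Type} [Field Ω] [CharZero Ω] {k : Subfield Ω} {d : Fin 3 → ℕ}
    {D : DSys Ω 6 3 d} {x : Fin (6 + 1) → Ω} {j0 : Fin (6 + 1)} (hx : x j0 = 1)
    (h0 : ∀ m, eval x (D.F m) = 0) (hk : ∀ m I, coeff I (D.F m) ∈ k) (hrac : Rac k)
    (hnk : ∃ i, x i ∉ k) {m1 m2 m3 : Fin 3} (h12 : m1 ≠ m2) (h13 : m1 ≠ m3) (h23 : m2 ≠ m3)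
    (hall : ∀ m, m = m1 ∨ m = m2 ∨ m = m3) (hd1 : d m1 = 2) (hd2 : d m2 = 3) (hd3 : d m3 = 3)
    {u2 u3 : Fin (6 + 1) → Ω}
    (hu2 : ∀ q, eval x (pderiv q (D.F m2)) = eval u2 (pderiv q (D.F m1)))
    (hu3 : ∀ q, eval x (pderiv q (D.F m3)) = eval u3 (pderiv q (D.F m1)))
    (b22 : bf (D.F m1) u2 u2 = 0) (b23 : bf (D.F m1) u2 u3 = 0) (b33 : bf (D.F m1) u3 u3 = 0) :
    False := by
  classical
  have hF : (D.F m1).IsHomogeneous 2 := by
    have := D.hom m1
    rwa [hd1] at this
  have hF2 : (D.F m2).IsHomogeneous (2 + 1) := by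
    have := D.hom m2
    rwa [hd2] at this
  have hF3 : (D.F m3).IsHomogeneous (2 + 1) := by
    have := D.hom m3
    rwa [hd3] at this
  -- the functionals
  have bu : ∀ (a : MvPolynomial (Fin (6 + 1)) Ω) (u v : Fin (6 + 1) → Ω),
      (∀ q, eval x (pderiv q a) = eval u (pderiv q (D.F m1))) → bf a x v = bf (D.F m1) u v := by
    intro a u v h
    unfold bf
    exact Finset.sum_congr rfl fun q _ => by rw [h q]
  -- `x, u2, u3` are independent
  have hli : LinearIndependent Ω ![x, u2, u3] := by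
    rw [Fintype.linearIndependent_iff]
    intro g hg
    rw [Fin.sum_univ_three] at hg
    have h1 : ∀ v, g 0 * bf (D.F m1) x v + g 1 * bf (D.F m2) x v + g 2 * bf (D.F m3) x v = 0 := by
      intro v
      rw [bu _ u2 v hu2, bu _ u3 v hu3]
      have h2 := bf_lin_left hF v Finset.univ g ![x, u2, u3]
      rw [Fin.sum_univ_three] at h2
      have h3 : (fun q => ∑ i, g i * (![x, u2, u3] : Fin 3 → Fin (6 + 1) → Ω) i q) = 0 := by
        rw [← hg]
        funext q
        rw [Fin.sum_univ_three]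
        rfl
      rw [h3, bf_symm hF] at h2
      have h4 : bf (D.F m1) v 0 = 0 := by
        unfold bf
        exact Finset.sum_eq_zero fun p _ => by rw [Pi.zero_apply, mul_zero]
      rw [h4] at h2
      exact h2.symm
    have h2 : ∀ m m' : Fin 3, bf (D.F m) x (VT D x (Pi.single m' (X j0 ^ d m'))) =
        if m = m' then -1 else 0 := by
      intro m m'
      have h3 := grad_VT D x h0 (Pi.single m' (X j0 ^ d m')) (by
        intro m''
        by_cases h : m'' = m'
        · subst h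
          rw [Pi.single_eq_same]
          exact isHomogeneous_X_pow j0 _
        · rw [Pi.single_eq_of_ne h]
          exact isHomogeneous_zero _ _ _) m
      unfold bf
      rw [h3]
      split_ifs with h
      · subst h
        rw [Pi.single_eq_same, map_pow, eval_X, hx, one_pow]
      · rw [Pi.single_eq_of_ne h, map_zero, neg_zero]
    have k1 := h1 (VT D x (Pi.single m1 (X j0 ^ d m1)))
    have k2 := h1 (VT D x (Pi.single m2 (X j0 ^ d m2)))
    have k3 := h1 (VT D x (Pi.single m3 (X j0 ^ d m3)))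
    simp only [h2, if_neg h12, if_neg h12.symm, if_neg h13, if_neg h13.symm, if_neg h23,
      if_neg h23.symm, if_true] at k1 k2 k3
    intro i
    fin_cases i
    · show g 0 = 0
      linear_combination -k1
    · show g 1 = 0
      linear_combination -k2
    · show g 2 = 0
      linear_combination -k3
  obtain ⟨Q, hQ⟩ := H19.exists_dual' _ hli
  set ξ : Fin 3 → MvPolynomial (Fin (6 + 1)) Ω := fun i => H75.lf (Q i) with hξ
  have hξh : ∀ i, (ξ i).IsHomogeneous 1 := fun i => H75.lf_hom _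
  have hξe : ∀ i i', eval ((![x, u2, u3] : Fin 3 → Fin (6 + 1) → Ω) i') (ξ i) =
      if i = i' then 1 else 0 := by
    intro i i'
    rw [← hQ, hξ]
    unfold H75.lf
    rw [map_sum]
    exact Finset.sum_congr rfl fun p _ => by rw [map_mul, eval_C, eval_X]
  have ex0 : eval x (ξ 0) = 1 := hξe 0 0
  have ex1 : eval x (ξ 1) = 0 := hξe 1 0
  have ex2 : eval x (ξ 2) = 0 := hξe 2 0
  have e20 : eval u2 (ξ 0) = 0 := hξe 0 1
  have e21 : eval u2 (ξ 1) = 1 := hξe 1 1
  have e22 : eval u2 (ξ 2) = 0 := hξe 2 1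
  have e30 : eval u3 (ξ 0) = 0 := hξe 0 2
  have e31 : eval u3 (ξ 1) = 0 := hξe 1 2
  have e32 : eval u3 (ξ 2) = 1 := hξe 2 2
  -- the six functionals
  set f : Fin 6 → (Fin (6 + 1) → Ω) →ₗ[Ω] Ω :=
    ![Gr D x m1, Gr D x m2, Gr D x m3, SS (D.F m2) (D.F m2) x u2 u2,
      SS (D.F m2) (D.F m3) x u2 u3, SS (D.F m3) (D.F m3) x u3 u3] with hf
  have main : ∀ δ : Derivation ℤ Ω Ω,
      f 0 (fun p => δ (x p)) = -eval x (dco δ (D.F m1)) ∧
      f 1 (fun p => δ (x p)) = -eval x (dco δ (D.F m2)) ∧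
      f 2 (fun p => δ (x p)) = -eval x (dco δ (D.F m3)) ∧
      f 3 (fun p => δ (x p)) = bf (dco δ (D.F m1)) u2 u2 - 2 * bf (dco δ (D.F m2)) x u2 ∧
      f 4 (fun p => δ (x p)) = bf (dco δ (D.F m1)) u3 u2 - bf (dco δ (D.F m2)) x u3 -
        bf (dco δ (D.F m3)) x u2 ∧
      f 5 (fun p => δ (x p)) = bf (dco δ (D.F m1)) u3 u3 - 2 * bf (dco δ (D.F m3)) x u3 := by
    intro δ
    have hg : ∀ m, Gr D x m (fun p => δ (x p)) = -eval x (dco δ (D.F m)) := by
      intro m
      have h1 := der_ev δ (D.F m) x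
      rw [h0, map_zero] at h1
      rw [Gr_apply]
      linear_combination -h1
    have s22 := der_main δ hF hu2 hu2 b22
    have s23 := der_main δ hF hu2 hu3 b23
    have s33 := der_main δ hF hu3 hu3 b33
    refine ⟨hg m1, hg m2, hg m3, ?_, ?_, ?_⟩
    · show SS (D.F m2) (D.F m2) x u2 u2 _ = _
      rw [SS_apply, s22]
      ring
    · show SS (D.F m2) (D.F m3) x u2 u3 _ = _
      rw [SS_apply, s23]
    · show SS (D.F m3) (D.F m3) x u3 u3 _ = _
      rw [SS_apply, s33]
      ring
  -- they are independent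
  have hfi : LinearIndependent Ω f := by
    rw [Fintype.linearIndependent_iff]
    intro a ha
    have h1 : ∀ g : Fin 6 → Ω, -(g 0 * a 0) - g 1 * a 1 - g 2 * a 2 + 2 * g 3 * a 3 +
        g 4 * a 4 + 2 * g 5 * a 5 = 0 := by
      intro g
      set G := GG m1 m2 m3 ξ g with hG
      have G1 : G m1 = C (g 0) * (ξ 0 * ξ 0) + C (g 3) * (ξ 1 * ξ 1) + C (g 4) * (ξ 1 * ξ 2) +
          C (g 5) * (ξ 2 * ξ 2) := by
        rw [hG]
        unfold GG
        rw [Pi.add_apply, Pi.add_apply, Pi.single_eq_same, Pi.single_eq_of_ne h12,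
          Pi.single_eq_of_ne h13, add_zero, add_zero]
      have G2 : G m2 = C (g 1) * (ξ 0 * (ξ 0 * ξ 0)) := by
        rw [hG]
        unfold GG
        rw [Pi.add_apply, Pi.add_apply, Pi.single_eq_same, Pi.single_eq_of_ne h12.symm,
          Pi.single_eq_of_ne h23, add_zero, zero_add]
      have G3 : G m3 = C (g 2) * (ξ 0 * (ξ 0 * ξ 0)) := by
        rw [hG]
        unfold GG
        rw [Pi.add_apply, Pi.add_apply, Pi.single_eq_same, Pi.single_eq_of_ne h13.symm,
          Pi.single_eq_of_ne h23.symm, add_zero, zero_add]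
      have hc : ∀ (a : Ω) {g : MvPolynomial (Fin (6 + 1)) Ω} {e : ℕ}, g.IsHomogeneous e →
          (C a * g).IsHomogeneous e := by
        intro a g e hg
        simpa using (isHomogeneous_C (Fin (6 + 1)) a).mul hg
      have hGh : H75.Hom d G := by
        intro m
        rcases hall m with h | h | h
        · rw [h, G1, hd1]
          exact (((hc _ ((hξh 0).mul (hξh 0))).add (hc _ ((hξh 1).mul (hξh 1)))).add
            (hc _ ((hξh 1).mul (hξh 2)))).add (hc _ ((hξh 2).mul (hξh 2)))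
        · rw [h, G2, hd2]
          exact hc _ ((hξh 0).mul ((hξh 0).mul (hξh 0)))
        · rw [h, G3, hd3]
          exact hc _ ((hξh 0).mul ((hξh 0).mul (hξh 0)))
      obtain ⟨k0, k1, k2, k3, k4, k5⟩ := main (DG D G)
      rw [dco_F D hGh, G1] at k0
      rw [dco_F D hGh, G2] at k1
      rw [dco_F D hGh, G3] at k2
      rw [dco_F D hGh, dco_F D hGh, G1, G2] at k3
      rw [dco_F D hGh, dco_F D hGh, dco_F D hGh, G1, G2, G3] at k4
      rw [dco_F D hGh, dco_F D hGh, G1, G3] at k5
      simp only [bf_add, bf_C0, bf_mul, bf_lin1 (hξh _), map_add, map_mul, eval_C, ex0, ex1, ex2,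
        e20, e21, e22, e30, e31, e32, mul_zero, mul_one, add_zero,
        zero_add, sub_zero] at k0 k1 k2 k3 k4 k5
      have h2 := LinearMap.congr_fun ha (fun p => DG D G (x p))
      rw [LinearMap.sum_apply, Fin.sum_univ_six, LinearMap.zero_apply] at h2
      simp only [LinearMap.smul_apply, smul_eq_mul] at h2
      rw [k0, k1, k2, k3, k4, k5] at h2
      linear_combination h2
    have hs : ∀ i, -((Pi.single i 1 : Fin 6 → Ω) 0 * a 0) - (Pi.single i 1 : Fin 6 → Ω) 1 * a 1 -
        (Pi.single i 1 : Fin 6 → Ω) 2 * a 2 + 2 * (Pi.single i 1 : Fin 6 → Ω) 3 * a 3 +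
        (Pi.single i 1 : Fin 6 → Ω) 4 * a 4 + 2 * (Pi.single i 1 : Fin 6 → Ω) 5 * a 5 = 0 :=
      fun i => h1 _
    intro i
    have h2 := hs i
    fin_cases i <;> simpa [Pi.single_apply] using h2
  have hdim := finrank_ker_pi' f hfi
  rw [Module.finrank_fin_fun] at hdim
  have hdim1 : Module.finrank Ω (LinearMap.ker (LinearMap.pi f)) = 1 := by omega
  -- `x` is in the kernel
  have hxk : x ∈ LinearMap.ker (LinearMap.pi f) := by
    have hg : ∀ m, Gr D x m x = 0 := by
      intro m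
      rw [Gr_apply, bf_self (D.hom m), h0, mul_zero]
    have hb2 : ∀ v, bf (D.F m2) x v = bf (D.F m1) u2 v := fun v => bu _ u2 v hu2
    have hb3 : ∀ v, bf (D.F m3) x v = bf (D.F m1) u3 v := fun v => bu _ u3 v hu3
    have b32 : bf (D.F m1) u3 u2 = 0 := by rw [bf_symm hF, b23]
    rw [LinearMap.mem_ker]
    funext i
    rw [LinearMap.pi_apply]
    fin_cases i
    · exact hg m1
    · exact hg m2
    · exact hg m3
    · show SS (D.F m2) (D.F m2) x u2 u2 x = 0
      rw [SS_apply, sf_x hF2, hb2, b22]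
      ring
    · show SS (D.F m2) (D.F m3) x u2 u3 x = 0
      rw [SS_apply, sf_x hF2, sf_x hF3, hb2, hb3, b23, b32]
      ring
    · show SS (D.F m3) (D.F m3) x u3 u3 x = 0
      rw [SS_apply, sf_x hF3, hb3, b33]
      ring
  have hx0 : x ≠ 0 := by
    intro h
    rw [h] at hx
    exact zero_ne_one hx
  obtain ⟨i, hi⟩ := hnk
  apply hi
  refine T2.H95.mem_of_der k (alg_of_rac hrac) (x i) fun δ hδ => ?_
  have hz : ∀ m, dco δ (D.F m) = 0 := by
    intro m
    ext J
    rw [H75.coeff_dco, hδ _ (hk m J), coeff_zero]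
  obtain ⟨k0, k1, k2, k3, k4, k5⟩ := main δ
  simp only [hz, map_zero, neg_zero, bf_zero, mul_zero, sub_zero] at k0 k1 k2 k3 k4 k5
  have hv : (fun p => δ (x p)) ∈ LinearMap.ker (LinearMap.pi f) := by
    rw [LinearMap.mem_ker]
    funext i
    rw [LinearMap.pi_apply]
    fin_cases i
    · exact k0
    · exact k1
    · exact k2
    · exact k3
    · exact k4
    · exact k5
  obtain ⟨a, ha⟩ := (finrank_eq_one_iff_of_nonzero' (⟨x, hxk⟩ : LinearMap.ker (LinearMap.pi f))
    (fun h => hx0 (congrArg Subtype.val h))).1 hdim1 ⟨_, hv⟩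
  have ha' : a • x = fun p => δ (x p) := congrArg Subtype.val ha
  have h1 := congrFun ha' j0
  rw [Pi.smul_apply, hx, smul_eq_mul, mul_one, Derivation.map_one_eq_zero] at h1
  have h2 := congrFun ha' i
  rw [Pi.smul_apply, h1, zero_smul] at h2
  exact h2.symm

theorem fin1 : Fin1Statement := by
  classical
  intro Ω _ _ k n c d D x j0 t P H hk hrac hnk m1 h2 h3 hiso hker
  have hP : LinearIndependent Ω P := H19.li_frame P H.ch.Pt
  have hF : (D.F m1).IsHomogeneous 2 := by
    have := D.hom m1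
    rwa [h2] at this
  have hBi : LinearIndependent Ω (Bm D P m1) := by
    rw [Fintype.linearIndependent_iff]
    intro g hg i
    refine congrFun (indep (D := D) hP h2 (z := g) fun v => ?_) i
    have := LinearMap.congr_fun hg v
    rw [LinearMap.sum_apply, LinearMap.zero_apply] at this
    rw [← this]
    refine Finset.sum_congr rfl fun i _ => ?_
    rw [LinearMap.smul_apply, Bm_apply, smul_eq_mul]
  have e1 := finrank_ker_pi' (Bm D P m1) hBi
  have e2 := finrank_ker_pi (Gr D x)
  rw [Module.finrank_fin_fun] at e1 e2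
  have hle : LinearMap.ker (LinearMap.pi (Gr D x)) ≤ LinearMap.ker (LinearMap.pi (Bm D P m1)) := by
    intro v hv
    rw [LinearMap.mem_ker] at hv ⊢
    have hv' : v ∈ KerF D x := by
      intro m
      have := congrFun hv m
      rw [LinearMap.pi_apply, Gr_apply] at this
      exact this
    funext i
    rw [LinearMap.pi_apply, Bm_apply]
    exact hker v hv' i
  have e3 := Submodule.finrank_mono hle
  have e4 : 3 * c ≤ ∑ m, d m + 1 := by
    have h5 : ∑ m : Fin c, 3 ≤ ∑ m, (d m + if m = m1 then 1 else 0) := by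
      refine Finset.sum_le_sum fun m _ => ?_
      by_cases hm : m = m1
      · rw [if_pos hm, hm, h2]
      · rw [if_neg hm, add_zero]
        exact h3 m hm
    rw [Finset.sum_const, Finset.card_univ, Fintype.card_fin, smul_eq_mul,
      Finset.sum_add_distrib, Finset.sum_ite_eq' Finset.univ m1] at h5
    simp only [Finset.mem_univ, if_true] at h5
    omega
  have hn := H.hn
  have hd := H.hd
  obtain rfl : c = 3 := by omega
  obtain rfl : n = 6 := by omega
  obtain ⟨m2, m3, h12, h13, h23, hall⟩ : ∃ m2 m3 : Fin 3, m1 ≠ m2 ∧ m1 ≠ m3 ∧ m2 ≠ m3 ∧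
      ∀ m, m = m1 ∨ m = m2 ∨ m = m3 := by
    have : ∀ m1 : Fin 3, ∃ m2 m3 : Fin 3, m1 ≠ m2 ∧ m1 ≠ m3 ∧ m2 ≠ m3 ∧
      ∀ m, m = m1 ∨ m = m2 ∨ m = m3 := by decide
    exact this m1
  have hsum : d m1 + d m2 + d m3 = 8 := by
    rw [Fin.sum_univ_three] at hd
    have h5 : ∀ m1 m2 m3 : Fin 3, m1 ≠ m2 → m1 ≠ m3 → m2 ≠ m3 →
        d m1 + d m2 + d m3 = d 0 + d 1 + d 2 := by
      intro m1 m2 m3 h12 h13 h23
      fin_cases m1 <;> fin_cases m2 <;> fin_cases m3 <;> first
        | exact absurd rfl h12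
        | exact absurd rfl h13
        | exact absurd rfl h23
        | (simp only [Fin.zero_eta, Fin.mk_one, Fin.reduceFinMk]; try omega)
    rw [h5 m1 m2 m3 h12 h13 h23, hd]
  have hd2 : d m2 = 3 := by
    have := h3 m2 h12.symm
    have := h3 m3 h13.symm
    omega
  have hd3 : d m3 = 3 := by
    have := h3 m2 h12.symm
    have := h3 m3 h13.symm
    omega
  have heq : LinearMap.ker (LinearMap.pi (Gr D x)) = LinearMap.ker (LinearMap.pi (Bm D P m1)) :=
    Submodule.eq_of_le_of_finrank_le hle (by omega)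
  have hu : ∀ m, ∃ a : Fin 3 → Ω, ∀ v, bf (D.F m) x v = bf (D.F m1)
      (fun q => ∑ i, a i * P i q) v := by
    intro m
    have h5 : Gr D x m ∈ Submodule.span Ω (Set.range (Bm D P m1)) := by
      refine mem_span_of_iInf_ker_le_ker ?_
      rw [← LinearMap.ker_pi, ← heq, LinearMap.ker_pi]
      exact iInf_le _ m
    obtain ⟨a, ha⟩ := (Submodule.mem_span_range_iff_exists_fun Ω).1 h5
    refine ⟨a, fun v => ?_⟩
    rw [bf_lin_left hF, ← Gr_apply, ← ha, LinearMap.sum_apply]
    refine Finset.sum_congr rfl fun i _ => ?_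
    rw [LinearMap.smul_apply, Bm_apply, smul_eq_mul]
  obtain ⟨a2, ha2⟩ := hu m2
  obtain ⟨a3, ha3⟩ := hu m3
  have hq : ∀ (Fa : MvPolynomial (Fin (6 + 1)) Ω) (u : Fin (6 + 1) → Ω),
      (∀ v, bf Fa x v = bf (D.F m1) u v) → ∀ q, eval x (pderiv q Fa) =
        eval u (pderiv q (D.F m1)) := by
    intro Fa u h q
    have h5 : ∀ (G : MvPolynomial (Fin (6 + 1)) Ω) (z : Fin (6 + 1) → Ω),
        bf G z (Pi.single q 1) = eval z (pderiv q G) := by
      intro G z
      unfold bf
      rw [Finset.sum_eq_single q]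
      · rw [Pi.single_eq_same, mul_one]
      · intro b _ hb
        rw [Pi.single_eq_of_ne hb, mul_zero]
      · intro h; exact absurd (Finset.mem_univ q) h
    rw [← h5, ← h5, h]
  have hb : ∀ a b : Fin 3 → Ω, bf (D.F m1) (fun q => ∑ i, a i * P i q)
      (fun q => ∑ i, b i * P i q) = 0 := by
    intro a b
    rw [bf_lin_left hF]
    refine Finset.sum_eq_zero fun i _ => ?_
    rw [bf_lin]
    have : ∑ j, b j * bf (D.F m1) (P i) (P j) = 0 :=
      Finset.sum_eq_zero fun j _ => by
        have h5 : bf (D.F m1) (P i) (P j) = 0 := hiso i j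
        rw [h5, mul_zero]
    rw [this, mul_zero]
  exact core H.hj0 H.h0 hk hrac hnk h12 h13 h23 hall h2 hd2 hd3 (hq _ _ ha2) (hq _ _ ha3)
    (hb _ _) (hb _ _) (hb _ _)

end Pool.Agent.T2C.H53
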