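import Pool.Agent.Lib.MP_c7af3c_ag.T2C.H53.Tools

/-!
# MP_c7af3c_ag, project T2C, row BETA, sub-row QUA (helper53)
See T2C/PaperBeta.md, section 4.
-/

set_option autoImplicit false

namespace Pool.Agent.T2C.H53

open MvPolynomial Pool.Agent.Gen Pool.Agent.Sharp Pool.Agent.Edge

section

variable {Ω : Type} [Field Ω] {n c : ℕ} {d : Fin c → ℕ} {D : DSys Ω n c d}
  {x : Fin (n + 1) → Ω} {j0 : Fin (n + 1)} {t : Fin (2 + 1) → Fin (n + 1)}
  {P : Fin (2 + 1) → Fin (n + 1) → Ω} {m1 : Fin c} {ω : Fin c → Ω} {τ : Fin c → Fin 2 → Ω}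
  {T : Fin 2 → Fin 2 → Fin (n + 1) → Ω}

/-- the derivative of the equations along `v` -/
noncomputable def Fd (D : DSys Ω n c d) (v : Fin (n + 1) → Ω) (m : Fin c) :
    MvPolynomial (Fin (n + 1)) Ω := ∑ p, C (v p) * pderiv p (D.F m)

theorem Fd_eval (v z : Fin (n + 1) → Ω) (m : Fin c) :
    eval z (Fd D v m) = bf (D.F m) z v := by
  unfold Fd bf
  rw [map_sum]
  refine Finset.sum_congr rfl fun p _ => ?_
  rw [map_mul, eval_C, mul_comm]

theorem Fd_hom (v : Fin (n + 1) → Ω) {m : Fin c} {e : ℕ} (he : d m = e + 1) :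
    (Fd D v m).IsHomogeneous e := by
  refine IsHomogeneous.sum _ _ _ fun p _ => ?_
  have h1 : (pderiv p (D.F m)).IsHomogeneous e := by
    have := (D.hom m).pderiv (i := p)
    rwa [he, Nat.add_sub_cancel] at this
  simpa using (isHomogeneous_C (Fin (n + 1)) (v p)).mul h1

theorem WT_sum (v : Fin (n + 1) → Ω) (q : Fin (n + 1)) :
    ∑ p, v p • WT D x p q = x q • v + VT D x fun m => X q * Fd D v m := by
  unfold WT
  simp only [smul_add, Finset.sum_add_distrib]
  congr 1
  · funext a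
    rw [Finset.sum_apply, Finset.sum_eq_single a]
    · simp [mul_comm]
    · intro b _ hb
      simp [hb.symm]
    · intro h; exact absurd (Finset.mem_univ a) h
  · simp only [← map_smul]
    rw [← map_sum]
    congr 1
    funext m
    rw [Finset.sum_apply]
    unfold Fd
    rw [Finset.mul_sum]
    refine Finset.sum_congr rfl fun p _ => ?_
    rw [Pi.smul_apply, smul_eq_C_mul]
    ring

/-- (E1) -/
theorem E1 (hx : x j0 = 1) (w0 : ∀ p q, WT D x p q ∈ Submodule.span Ω {x})
    (v : Fin (n + 1) → Ω) (i : Fin 2) :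
    VT D x (fun m => Fd D v m * nf x j0 t i) = 0 := by
  refine H26.VT_zero_of_span D hx ?_
  have h1 : ∀ q, x q • v + VT D x (fun m => X q * Fd D v m) ∈ Submodule.span Ω {x} := by
    intro q
    rw [← WT_sum]
    exact Submodule.sum_mem _ fun p _ => Submodule.smul_mem _ _ (w0 p q)
  have h2 : VT D x (fun m => Fd D v m * nf x j0 t i) =
      (x (t i.succ) • v + VT D x (fun m => X (t i.succ) * Fd D v m)) -
      x (t i.succ) • (x j0 • v + VT D x (fun m => X j0 * Fd D v m)) := by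
    have h3 : (fun m => Fd D v m * nf x j0 t i) = (fun m => X (t i.succ) * Fd D v m) -
        x (t i.succ) • (fun m => X j0 * Fd D v m) := by
      funext m
      rw [Pi.sub_apply, Pi.smul_apply, smul_eq_C_mul]
      unfold nf lf
      ring
    rw [h3, map_sub, map_smul, hx, one_smul]
    module
  rw [h2]
  exact Submodule.sub_mem _ (h1 _) (Submodule.smul_mem _ _ (h1 _))

/-- (E4), first part -/
theorem E4 (hx : x j0 = 1) (w0 : ∀ p q, WT D x p q ∈ Submodule.span Ω {x})
    (v : Fin (n + 1) → Ω) :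
    v + VT D x (fun m => X j0 * Fd D v m) ∈ Submodule.span Ω {x} := by
  have h1 : x j0 • v + VT D x (fun m => X j0 * Fd D v m) ∈ Submodule.span Ω {x} := by
    rw [← WT_sum]
    exact Submodule.sum_mem _ fun p _ => Submodule.smul_mem _ _ (w0 p j0)
  rwa [hx, one_smul] at h1

theorem T_symm (k : Kro D x j0 t m1 ω τ T) (i j : Fin 2) : T i j = T j i := by
  fin_cases i <;> fin_cases j
  · rfl
  · exact k.sym.symm
  · exact k.sym
  · rfl

/-- the values at the vectors of the frame agree with the value at `x`, or `ω m = 0` -/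
theorem om_eval (k : Kro D x j0 t m1 ω τ T) {m : Fin c} {e : ℕ} (he : d m = e + 2)
    {B : MvPolynomial (Fin (n + 1)) Ω} (hB : B.IsHomogeneous e) (u v : Fin (n + 1) → Ω) :
    ω m * eval u B = ω m * eval v B := by
  rcases Nat.eq_zero_or_pos e with h | h
  · subst h
    rw [const_eval hB u v]
  · rw [k.ω0 m (by omega), zero_mul, zero_mul]

/-- the variation of `A nf_i`, `A` zero at `x` -/
theorem V_A [CharZero Ω] (H : BetH D x j0 t P) (k : Kro D x j0 t m1 ω τ T) {m : Fin c} {e : ℕ}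
    (he : d m = e + 2) {A : MvPolynomial (Fin (n + 1)) Ω} (hA : A.IsHomogeneous (e + 1))
    (h0 : eval x A = 0) (i : Fin 2) : D.V x m (A * nf x j0 t i) =
      ω m • (eval (P 1) A • T i 0 + eval (P 2) A • T i 1) := by
  set R : MvPolynomial (Fin (n + 1)) Ω →ₗ[Ω] (Fin (n + 1) → Ω) :=
    (D.V x m).comp (LinearMap.mulRight Ω (nf x j0 t i)) -
      ω m • ((aeval (P 1) : MvPolynomial (Fin (n + 1)) Ω →ₐ[Ω] Ω).toLinearMap.smulRight (T i 0) +
        (aeval (P 2) : MvPolynomial (Fin (n + 1)) Ω →ₐ[Ω] Ω).toLinearMap.smulRight (T i 1))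
    with hR
  have hRa : ∀ G, R G = D.V x m (G * nf x j0 t i) -
      ω m • (eval (P 1) G • T i 0 + eval (P 2) G • T i 1) := by
    intro G
    rw [hR]
    simp only [LinearMap.sub_apply, LinearMap.comp_apply, LinearMap.smul_apply,
      LinearMap.add_apply, LinearMap.smulRight_apply, AlgHom.toLinearMap_apply,
      LinearMap.mulRight_apply]
    rfl
  have key : R A ∈ (⊥ : Submodule Ω (Fin (n + 1) → Ω)) := by
    refine of_pt (j0 := j0) (e := e) R ⊥ (fun q B hB => ?_) hA h0
    rw [Submodule.mem_bot, hRa, sub_eq_zero]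
    have e1 : B * lf x j0 q * nf x j0 t i = (B * nf x j0 t i) * lf x j0 q := by ring
    have h1 : ∀ j, D.V x m (B * nf x j0 t i * nf x j0 t j) = (eval x B * ω m) • T i j := by
      intro j
      have h2 := k.two m B (by rwa [he, Nat.add_sub_cancel]) j i
      rw [H26.VT_single] at h2
      rw [h2, T_symm k]
    rw [e1, V_lf H.hj0 H.ch H.van (by omega : d m = (e + 1) + 1) (hB.mul (nf_hom i)), h1, h1]
    have h3 : ∀ (u : Fin (n + 1) → Ω), u j0 = 0 → eval u (B * lf x j0 q) = eval u B * u q := by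
      intro u hu
      unfold lf
      rw [map_mul, map_sub, map_mul, eval_X, eval_X, hu, mul_zero, sub_zero]
    rw [h3 _ (P_j0 H.ch).1, h3 _ (P_j0 H.ch).2]
    have h4 := om_eval k he hB x (P 1)
    have h5 := om_eval k he hB x (P 2)
    calc P 1 q • (eval x B * ω m) • T i 0 + P 2 q • (eval x B * ω m) • T i 1 =
        (P 1 q * (ω m * eval x B)) • T i 0 + (P 2 q * (ω m * eval x B)) • T i 1 := by module
      _ = (P 1 q * (ω m * eval (P 1) B)) • T i 0 + (P 2 q * (ω m * eval (P 2) B)) • T i 1 := by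
          rw [← h4, ← h5]
      _ = _ := by module
  rw [Submodule.mem_bot, hRa, sub_eq_zero] at key
  exact key

/-- (E2) for the second and the third vector of the frame -/
theorem E2 [CharZero Ω] (H : BetH D x j0 t P) (k : Kro D x j0 t m1 ω τ T)
    {v : Fin (n + 1) → Ω} (hv : v ∈ KerF D x) :
    (∑ m, ω m * bf (D.F m) (P 1) v = 0) ∧ ∑ m, ω m * bf (D.F m) (P 2) v = 0 := by
  have h1 := E1 (t := t) H.hj0 H.w0 v 0
  rw [VT_apply] at h1
  have h2 : ∀ m, D.V x m (Fd D v m * nf x j0 t 0) =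
      ω m • (bf (D.F m) (P 1) v • T 0 0 + bf (D.F m) (P 2) v • T 0 1) := by
    intro m
    obtain ⟨e, he⟩ := Nat.exists_eq_add_of_le' (H.d2 m)
    rw [V_A H k he (Fd_hom v (by omega)) ?_ 0, Fd_eval, Fd_eval]
    rw [Fd_eval]
    exact hv m
  rw [Finset.sum_congr rfl fun m _ => h2 m] at h1
  have h3 : (∑ m, ω m * bf (D.F m) (P 1) v) • T 0 0 + (∑ m, ω m * bf (D.F m) (P 2) v) • T 0 1 +
      (0 : Ω) • T 1 1 = 0 := by
    rw [← h1, zero_smul, add_zero, Finset.sum_smul, Finset.sum_smul, ← Finset.sum_add_distrib]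
    refine Finset.sum_congr rfl fun m _ => ?_
    module
  have h4 := Fintype.linearIndependent_iff.1 k.li
    ![∑ m, ω m * bf (D.F m) (P 1) v, ∑ m, ω m * bf (D.F m) (P 2) v, 0] (by
      rw [Fin.sum_univ_three]
      exact h3)
  exact ⟨h4 0, h4 1⟩

/-- (E2) -/
theorem E2' [CharZero Ω] (H : BetH D x j0 t P) (k : Kro D x j0 t m1 ω τ T)
    {v : Fin (n + 1) → Ω} (hv : v ∈ KerF D x) (i : Fin 3) :
    ∑ m, ω m * bf (D.F m) (P i) v = 0 := by
  obtain ⟨h1, h2⟩ := E2 H k hv
  fin_cases i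
  · have h3 : ∀ m, ω m * bf (D.F m) (P 0) v = ω m * bf (D.F m) x v -
        x (t 1) * (ω m * bf (D.F m) (P 1) v) - x (t 2) * (ω m * bf (D.F m) (P 2) v) := by
      intro m
      obtain ⟨e, he⟩ := Nat.exists_eq_add_of_le' (H.d2 m)
      rcases Nat.eq_zero_or_pos e with h | h
      · subst h
        have hF : (D.F m).IsHomogeneous 2 := by
          have := D.hom m
          rwa [he] at this
        have h4 : x = fun q => ∑ i : Fin 3, x (t i) * P i q := by
          funext q
          rw [H.ch.xP q]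
          exact Finset.sum_congr rfl fun i _ => mul_comm _ _
        have h5 : bf (D.F m) x v = ∑ i : Fin 3, x (t i) * bf (D.F m) (P i) v := by
          conv_lhs => rw [h4]
          exact bf_lin_left hF v Finset.univ (fun i => x (t i)) P
        rw [Fin.sum_univ_three, H.ch.t0, H.hj0, one_mul] at h5
        rw [h5]
        ring
      · rw [k.ω0 m (by omega)]
        ring
    show ∑ m, ω m * bf (D.F m) (P 0) v = 0
    rw [Finset.sum_congr rfl fun m _ => h3 m, Finset.sum_sub_distrib, Finset.sum_sub_distrib,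
      ← Finset.mul_sum, ← Finset.mul_sum, h1, h2, mul_zero, mul_zero, sub_zero, sub_zero]
    refine Finset.sum_eq_zero fun m _ => ?_
    have : bf (D.F m) x v = 0 := hv m
    rw [this, mul_zero]
  · exact h1
  · exact h2

/-! ### the quadrics on the plane -/

omit [Field Ω] in
theorem quad_frame [Field Ω] {F : MvPolynomial (Fin (n + 1)) Ω} (hF : F.IsHomogeneous 2)
    (P : Fin 3 → Fin (n + 1) → Ω) (z : Fin 3 → Ω) :
    2 * eval (fun q => ∑ i, z i * P i q) F = z 0 ^ 2 * bf F (P 0) (P 0) +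
      2 * z 0 * z 1 * bf F (P 0) (P 1) + 2 * z 0 * z 2 * bf F (P 0) (P 2) +
      z 1 ^ 2 * bf F (P 1) (P 1) + 2 * z 1 * z 2 * bf F (P 1) (P 2) +
      z 2 ^ 2 * bf F (P 2) (P 2) := by
  have h1 := bf_self hF (fun q => ∑ i, z i * P i q)
  rw [bf_lin, Nat.cast_ofNat] at h1
  simp only [bf_lin_left hF] at h1
  rw [← h1]
  simp only [Fin.sum_univ_three]
  rw [bf_symm hF (P 1) (P 0), bf_symm hF (P 2) (P 0), bf_symm hF (P 2) (P 1)]
  ring

theorem eval_ssub (P : Fin 3 → Fin (n + 1) → Ω) (z : Fin 3 → Ω)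
    (F : MvPolynomial (Fin (n + 1)) Ω) :
    eval z (H65.ssub P F) = eval (fun p => ∑ i, z i * P i p) F := by
  unfold H65.ssub
  induction F using MvPolynomial.induction_on with
  | C a => simp
  | add F G hF hG => rw [map_add, map_add, map_add, hF, hG]
  | mul_X F j hF =>
    rw [map_mul, map_mul, map_mul, hF, aeval_X, eval_X, map_sum]
    congr 1
    refine Finset.sum_congr rfl fun i _ => ?_
    rw [map_mul, eval_C, eval_X, mul_comm]

/-- the expansion at `x` -/
noncomputable def ex (x : Fin (n + 1) → Ω) (j0 : Fin (n + 1)) (t : Fin (2 + 1) → Fin (n + 1))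
    (a0 a1 q0 q1 q2 : Ω) : MvPolynomial (Fin (n + 1)) Ω :=
  X j0 * (C a0 * nf x j0 t 0 + C a1 * nf x j0 t 1) +
    (C q0 * (nf x j0 t 0 * nf x j0 t 0) + C q1 * (nf x j0 t 1 * nf x j0 t 0) +
      C q2 * (nf x j0 t 1 * nf x j0 t 1))

theorem ex_hom (a0 a1 q0 q1 q2 : Ω) : (ex x j0 t a0 a1 q0 q1 q2).IsHomogeneous 2 := by
  have hc : ∀ (a : Ω) {g : MvPolynomial (Fin (n + 1)) Ω} {e : ℕ}, g.IsHomogeneous e →
      (C a * g).IsHomogeneous e := by
    intro a g e hg
    simpa using (isHomogeneous_C (Fin (n + 1)) a).mul hg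
  unfold ex
  refine ((isHomogeneous_X Ω j0).mul ((hc _ (nf_hom 0)).add (hc _ (nf_hom 1)))).add ?_
  exact ((hc _ ((nf_hom 0).mul (nf_hom 0))).add (hc _ ((nf_hom 1).mul (nf_hom 0)))).add
    (hc _ ((nf_hom 1).mul (nf_hom 1)))

theorem ex_ssub [CharZero Ω] (H : BetH D x j0 t P) {F : MvPolynomial (Fin (n + 1)) Ω}
    (hF : F.IsHomogeneous 2) (hx : eval x F = 0) :
    H65.ssub P (F - ex x j0 t (bf F x (P 1)) (bf F x (P 2)) (eval (P 1) F)
      (bf F (P 1) (P 2)) (eval (P 2) F)) = 0 := by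
  apply MvPolynomial.funext
  intro z
  rw [eval_ssub, map_zero, map_sub]
  set u : Fin (n + 1) → Ω := fun p => ∑ i, z i * P i p with hu
  have hut : ∀ j, u (t j) = z j := by
    intro j
    rw [hu]
    simp only [H.ch.Pt]
    simp
  have hj : u j0 = z 0 := by
    rw [← H.ch.t0]
    exact hut 0
  have hn : ∀ i : Fin 2, eval u (nf x j0 t i) = z i.succ - x (t i.succ) * z 0 := by
    intro i
    unfold nf lf
    rw [map_sub, map_mul, eval_X, eval_X, eval_C, hut, hj]
  have h4 : x = fun q => ∑ i : Fin 3, x (t i) * P i q := by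
    funext q
    rw [H.ch.xP q]
    exact Finset.sum_congr rfl fun i _ => mul_comm _ _
  have hx0 : x (t 0) = 1 := by rw [H.ch.t0]; exact H.hj0
  have h5 : ∀ v, bf F x v = bf F (P 0) v + x (t 1) * bf F (P 1) v + x (t 2) * bf F (P 2) v := by
    intro v
    have : bf F x v = ∑ i : Fin 3, x (t i) * bf F (P i) v := by
      conv_lhs => rw [h4]
      exact bf_lin_left hF v Finset.univ (fun i => x (t i)) P
    rw [this, Fin.sum_univ_three, hx0, one_mul]
  have h6 := quad_frame hF P z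
  have h7 := quad_frame hF P (fun i => x (t i))
  rw [← h4, hx, hx0] at h7
  have h8 := bf_self hF (P 1)
  have h9 := bf_self hF (P 2)
  unfold ex
  simp only [map_add, map_mul, eval_C, eval_X, hn, hj]
  simp only [Fin.succ_zero_eq_one, Fin.succ_one_eq_two, h5]
  have h10 : bf F (P 2) (P 1) = bf F (P 1) (P 2) := bf_symm hF _ _
  rw [h10]
  push_cast at h8 h9
  have h2 : (2 : Ω) ≠ 0 := two_ne_zero
  refine mul_left_cancel₀ h2 ?_
  linear_combination h6 - z 0 ^ 2 * h7 + (z 1 - x (t 1) * z 0) ^ 2 * h8 +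
    (z 2 - x (t 2) * z 0) ^ 2 * h9

/-- the value of `V` on the expansion -/
theorem V_ex (k : Kro D x j0 t m1 ω τ T) (hx : x j0 = 1) {m : Fin c} {e : ℕ} (he : d m = e + 2)
    (a0 a1 q0 q1 q2 : Ω) : D.V x m (X j0 ^ e * ex x j0 t a0 a1 q0 q1 q2) =
      (a0 * τ m 0 + ω m * q0) • T 0 0 + (a0 * τ m 1 + a1 * τ m 0 + ω m * q1) • T 0 1 +
        (a1 * τ m 1 + ω m * q2) • T 1 1 := by
  have h1 : ∀ i, D.V x m (X j0 ^ (e + 1) * nf x j0 t i) = τ m 0 • T 0 i + τ m 1 • T 1 i := by
    intro i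
    have := k.one m i
    rw [H26.VT_single, he] at this
    exact this
  have h2 : ∀ i j, D.V x m (X j0 ^ e * nf x j0 t j * nf x j0 t i) = ω m • T i j := by
    intro i j
    have := k.two m (X j0 ^ e) (by
      rw [he, Nat.add_sub_cancel]
      exact isHomogeneous_X_pow j0 e) i j
    rw [H26.VT_single, map_pow, eval_X, hx, one_pow, one_mul] at this
    exact this
  have e1 : X j0 ^ e * ex x j0 t a0 a1 q0 q1 q2 =
      a0 • (X j0 ^ (e + 1) * nf x j0 t 0) + a1 • (X j0 ^ (e + 1) * nf x j0 t 1) +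
      (q0 • (X j0 ^ e * nf x j0 t 0 * nf x j0 t 0) + q1 • (X j0 ^ e * nf x j0 t 1 * nf x j0 t 0) +
        q2 • (X j0 ^ e * nf x j0 t 1 * nf x j0 t 1)) := by
    unfold ex
    simp only [smul_eq_C_mul]
    ring
  rw [e1]
  simp only [map_add, map_smul, h1, h2, k.sym]
  module

/-- (E3) -/
theorem E3 [CharZero Ω] (H : BetH D x j0 t P) (k : Kro D x j0 t m1 ω τ T) {m' : Fin c}
    (hm' : d m' = 2) (m : Fin c) :
    bf (D.F m') x (P 1) * τ m 0 + ω m * eval (P 1) (D.F m') = 0 ∧
    bf (D.F m') x (P 1) * τ m 1 + bf (D.F m') x (P 2) * τ m 0 +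
      ω m * bf (D.F m') (P 1) (P 2) = 0 ∧
    bf (D.F m') x (P 2) * τ m 1 + ω m * eval (P 2) (D.F m') = 0 := by
  obtain ⟨e, he⟩ := Nat.exists_eq_add_of_le' (H.d2 m)
  have hF : (D.F m').IsHomogeneous 2 := by
    have := D.hom m'
    rwa [hm'] at this
  have hXe : (X j0 ^ e : MvPolynomial (Fin (n + 1)) Ω).IsHomogeneous e := isHomogeneous_X_pow j0 e
  have h1 := H26.VT_zero_of_span D H.hj0 (H.wF m m' (by rw [hm']; exact H.d2 m))
  rw [H26.VT_single, hm', he, Nat.add_sub_cancel] at h1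
  set E := ex x j0 t (bf (D.F m') x (P 1)) (bf (D.F m') x (P 2)) (eval (P 1) (D.F m'))
      (bf (D.F m') (P 1) (P 2)) (eval (P 2) (D.F m')) with hE
  have h2 := ex_ssub H hF (H.h0 m')
  rw [← hE] at h2
  have h3 : D.V x m (X j0 ^ e * (D.F m' - E)) = 0 := by
    have h4 := H26.VT_zero D (x := x) (t := t) (P := P) (fun m => le_trans (by norm_num) (H.d2 m))
      H.van (G := Pi.single m (X j0 ^ e * (D.F m' - E))) (by
        intro m''
        by_cases h : m'' = m
        · subst h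
          rw [Pi.single_eq_same, he]
          exact hXe.mul (hF.sub (ex_hom _ _ _ _ _))
        · rw [Pi.single_eq_of_ne h]
          exact isHomogeneous_zero _ _ _) (by
        intro m''
        by_cases h : m'' = m
        · subst h
          rw [Pi.single_eq_same, map_mul, h2, mul_zero]
        · rw [Pi.single_eq_of_ne h, map_zero])
    rwa [H26.VT_single] at h4
  rw [mul_sub, map_sub, h1, zero_sub, neg_eq_zero, hE, V_ex k H.hj0 he] at h3
  have h5 := Fintype.linearIndependent_iff.1 k.li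
    ![bf (D.F m') x (P 1) * τ m 0 + ω m * eval (P 1) (D.F m'),
      bf (D.F m') x (P 1) * τ m 1 + bf (D.F m') x (P 2) * τ m 0 +
        ω m * bf (D.F m') (P 1) (P 2),
      bf (D.F m') x (P 2) * τ m 1 + ω m * eval (P 2) (D.F m')] (by
      rw [Fin.sum_univ_three]
      exact h3)
  exact ⟨h5 0, h5 1, h5 2⟩

/-- the variation of `X_j0 B nf_i` -/
theorem V_B [CharZero Ω] (H : BetH D x j0 t P) (k : Kro D x j0 t m1 ω τ T) {m : Fin c} {e : ℕ}
    (he : d m = e + 2) {B : MvPolynomial (Fin (n + 1)) Ω} (hB : B.IsHomogeneous e) (i : Fin 2) :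
    D.V x m (X j0 * B * nf x j0 t i) = eval x B • (τ m 0 • T 0 i + τ m 1 • T 1 i) := by
  have h1 : D.V x m (X j0 ^ (e + 1) * nf x j0 t i) = τ m 0 • T 0 i + τ m 1 • T 1 i := by
    have := k.one m i
    rw [H26.VT_single, he] at this
    exact this
  have hXe : (C (eval x B) * X j0 ^ e : MvPolynomial (Fin (n + 1)) Ω).IsHomogeneous e := by
    simpa using (isHomogeneous_C (Fin (n + 1)) (eval x B)).mul (isHomogeneous_X_pow j0 e)
  have h2 := V_A H k he (A := X j0 * (B - C (eval x B) * X j0 ^ e)) (by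
    have h := (isHomogeneous_X Ω j0).mul (hB.sub hXe)
    rwa [Nat.add_comm 1 e] at h) (by
    rw [map_mul, map_sub, map_mul, map_pow, eval_X, eval_C, H.hj0, one_pow, mul_one, sub_self,
      mul_zero]) i
  have h3 : ∀ u : Fin (n + 1) → Ω, u j0 = 0 →
      eval u (X j0 * (B - C (eval x B) * X j0 ^ e)) = 0 := by
    intro u hu
    rw [map_mul, eval_X, hu, zero_mul]
  rw [h3 _ (P_j0 H.ch).1, h3 _ (P_j0 H.ch).2, zero_smul, zero_smul, add_zero, smul_zero] at h2
  have e1 : X j0 * B * nf x j0 t i = X j0 * (B - C (eval x B) * X j0 ^ e) * nf x j0 t i +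
      eval x B • (X j0 ^ (e + 1) * nf x j0 t i) := by
    rw [smul_eq_C_mul]
    ring
  rw [e1, map_add, h2, zero_add, map_smul, h1]

/-- the variation of `X_j0 A`, `A` zero at `x`, if the `τ m` are proportional to `ω m` -/
theorem V_C [CharZero Ω] (H : BetH D x j0 t P) (k : Kro D x j0 t m1 ω τ T) {m : Fin c} {e : ℕ}
    (he : d m = e + 2) {σ : Fin 2 → Ω} (hτ : ∀ i, τ m i = ω m * σ i)
    {A : MvPolynomial (Fin (n + 1)) Ω} (hA : A.IsHomogeneous (e + 1))
    (h0 : eval x A = 0) : D.V x m (X j0 * A) =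
      (ω m * eval (P 1) A) • (σ 0 • T 0 0 + σ 1 • T 1 0) +
        (ω m * eval (P 2) A) • (σ 0 • T 0 1 + σ 1 • T 1 1) := by
  set S0 := σ 0 • T 0 0 + σ 1 • T 1 0 with hS0
  set S1 := σ 0 • T 0 1 + σ 1 • T 1 1 with hS1
  set R : MvPolynomial (Fin (n + 1)) Ω →ₗ[Ω] (Fin (n + 1) → Ω) :=
    (D.V x m).comp (LinearMap.mulLeft Ω (X j0)) -
      ω m • ((aeval (P 1) : MvPolynomial (Fin (n + 1)) Ω →ₐ[Ω] Ω).toLinearMap.smulRight S0 +
        (aeval (P 2) : MvPolynomial (Fin (n + 1)) Ω →ₐ[Ω] Ω).toLinearMap.smulRight S1)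
    with hR
  have hRa : ∀ G, R G = D.V x m (X j0 * G) -
      ω m • (eval (P 1) G • S0 + eval (P 2) G • S1) := by
    intro G
    rw [hR]
    simp only [LinearMap.sub_apply, LinearMap.comp_apply, LinearMap.smul_apply,
      LinearMap.add_apply, LinearMap.smulRight_apply, AlgHom.toLinearMap_apply,
      LinearMap.mulLeft_apply]
    rfl
  have key : R A ∈ (⊥ : Submodule Ω (Fin (n + 1) → Ω)) := by
    refine of_pt (j0 := j0) (e := e) R ⊥ (fun q B hB => ?_) hA h0
    rw [Submodule.mem_bot, hRa, sub_eq_zero]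
    have e1 : X j0 * (B * lf x j0 q) = (X j0 * B) * lf x j0 q := by ring
    have hXB : (X j0 * B).IsHomogeneous (e + 1) := by
      have h := (isHomogeneous_X Ω j0).mul hB
      rwa [Nat.add_comm 1 e] at h
    rw [e1, V_lf H.hj0 H.ch H.van (by omega : d m = (e + 1) + 1) hXB, V_B H k he hB,
      V_B H k he hB, hτ 0, hτ 1]
    have h3 : ∀ (u : Fin (n + 1) → Ω), u j0 = 0 → eval u (B * lf x j0 q) = eval u B * u q := by
      intro u hu
      unfold lf
      rw [map_mul, map_sub, map_mul, eval_X, eval_X, hu, mul_zero, sub_zero]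
    rw [h3 _ (P_j0 H.ch).1, h3 _ (P_j0 H.ch).2]
    have h4 := om_eval k he hB x (P 1)
    have h5 := om_eval k he hB x (P 2)
    have h6 : ∀ i, (ω m * σ 0) • T 0 i + (ω m * σ 1) • T 1 i =
        ω m • (σ 0 • T 0 i + σ 1 • T 1 i) := by intro i; module
    rw [h6, h6, ← hS0, ← hS1]
    calc P 1 q • eval x B • ω m • S0 + P 2 q • eval x B • ω m • S1 =
        (P 1 q * (ω m * eval x B)) • S0 + (P 2 q * (ω m * eval x B)) • S1 := by module
      _ = (P 1 q * (ω m * eval (P 1) B)) • S0 + (P 2 q * (ω m * eval (P 2) B)) • S1 := by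
          rw [← h4, ← h5]
      _ = _ := by module
  rw [Submodule.mem_bot, hRa, sub_eq_zero] at key
  rw [key]
  module

/-- there is a vector of the kernel with the coordinate `j0` equal to zero -/
theorem exists_ker (hn : c + 1 < n + 1) (j0 : Fin (n + 1)) :
    ∃ v ∈ KerF D x, v ≠ 0 ∧ v j0 = 0 := by
  set ψ : (Fin (n + 1) → Ω) →ₗ[Ω] (Fin c → Ω) :=
    LinearMap.pi fun m => ∑ p, eval x (pderiv p (D.F m)) • LinearMap.proj p with hψ
  have h1 : LinearMap.ker (ψ.prod (LinearMap.proj (φ := fun _ => Ω) j0)) ≠ ⊥ := by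
    refine LinearMap.ker_ne_bot_of_finrank_lt ?_
    rw [Module.finrank_prod, Module.finrank_fin_fun, Module.finrank_fin_fun,
      Module.finrank_self]
    exact hn
  obtain ⟨v, hv, hv0⟩ := Submodule.exists_mem_ne_zero_of_ne_bot h1
  rw [LinearMap.mem_ker] at hv
  have h2 : ψ v = 0 := congrArg Prod.fst hv
  have h3 : v j0 = 0 := congrArg Prod.snd hv
  refine ⟨v, fun m => ?_, hv0, h3⟩
  have := congrFun h2 m
  rw [hψ, LinearMap.pi_apply, LinearMap.sum_apply] at this
  simpa using this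

theorem qua : QuaStatement := by
  intro Ω _ _ n c d D x j0 t P H m1 ω τ T k
  refine ⟨?_, fun v hv i => E2' H k hv i⟩
  -- all the `bf x P_i` are zero
  have main : ∀ m', d m' = 2 → bf (D.F m') x (P 1) = 0 ∧ bf (D.F m') x (P 2) = 0 := by
    intro m' hm'
    by_contra hcon
    have hcon' : ¬ (bf (D.F m') x (P 1) = 0 ∧ bf (D.F m') x (P 2) = 0) := hcon
    obtain ⟨g0, g1, g2⟩ := E3 H k hm' m1
    rw [k.ω1] at g0 g1 g2
    have hτ : ∀ m i, τ m i = ω m * τ m1 i := by
      intro m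
      obtain ⟨f0, f1, f2⟩ := E3 H k hm' m
      have r0 : bf (D.F m') x (P 1) * (τ m 0 - ω m * τ m1 0) = 0 := by
        linear_combination f0 - ω m * g0
      have r1 : bf (D.F m') x (P 1) * (τ m 1 - ω m * τ m1 1) +
          bf (D.F m') x (P 2) * (τ m 0 - ω m * τ m1 0) = 0 := by
        linear_combination f1 - ω m * g1
      have r2 : bf (D.F m') x (P 2) * (τ m 1 - ω m * τ m1 1) = 0 := by
        linear_combination f2 - ω m * g2
      have r3 : τ m 0 - ω m * τ m1 0 = 0 ∧ τ m 1 - ω m * τ m1 1 = 0 := by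
        by_cases ha : bf (D.F m') x (P 1) = 0
        · have hb : bf (D.F m') x (P 2) ≠ 0 := fun hb => hcon' ⟨ha, hb⟩
          rw [ha, zero_mul, zero_add] at r1
          exact ⟨(mul_eq_zero.1 r1).resolve_left hb, (mul_eq_zero.1 r2).resolve_left hb⟩
        · have r4 := (mul_eq_zero.1 r0).resolve_left ha
          rw [r4, mul_zero, add_zero] at r1
          exact ⟨r4, (mul_eq_zero.1 r1).resolve_left ha⟩
      intro i
      fin_cases i
      · exact sub_eq_zero.1 r3.1
      · exact sub_eq_zero.1 r3.2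
    obtain ⟨u, hu, hu0, huj⟩ := exists_ker (D := D) (x := x) (by have := H.hn; omega) j0
    have h1 := E4 H.hj0 H.w0 u
    obtain ⟨z1, z2⟩ := E2 H k hu
    have h2 : VT D x (fun m => X j0 * Fd D u m) = 0 := by
      rw [VT_apply]
      have h3 : ∀ m, D.V x m (X j0 * Fd D u m) =
          (ω m * bf (D.F m) (P 1) u) • (τ m1 0 • T 0 0 + τ m1 1 • T 1 0) +
            (ω m * bf (D.F m) (P 2) u) • (τ m1 0 • T 0 1 + τ m1 1 • T 1 1) := by
        intro m
        obtain ⟨e, he⟩ := Nat.exists_eq_add_of_le' (H.d2 m)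
        rw [V_C H k he (hτ m) (Fd_hom u (by omega)) (by rw [Fd_eval]; exact hu m), Fd_eval,
          Fd_eval]
      rw [Finset.sum_congr rfl fun m _ => h3 m, Finset.sum_add_distrib, ← Finset.sum_smul,
        ← Finset.sum_smul, z1, z2, zero_smul, zero_smul, add_zero]
    rw [h2, add_zero] at h1
    obtain ⟨a, ha⟩ := Submodule.mem_span_singleton.1 h1
    apply hu0
    have h3 : a = 0 := by
      have := congrFun ha j0
      rw [Pi.smul_apply, H.hj0, smul_eq_mul, mul_one, huj] at this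
      exact this
    rw [← ha, h3, zero_smul]
  intro m' hm'
  obtain ⟨ha, hb⟩ := main m' hm'
  obtain ⟨g0, g1, g2⟩ := E3 H k hm' m1
  rw [k.ω1, ha] at g0
  rw [k.ω1, ha, hb] at g1
  rw [k.ω1, hb] at g2
  have hF : (D.F m').IsHomogeneous 2 := by
    have := D.hom m'
    rwa [hm'] at this
  have h8 := bf_self hF (P 1)
  have h9 := bf_self hF (P 2)
  push_cast at h8 h9
  have b11 : bf (D.F m') (P 1) (P 1) = 0 := by linear_combination h8 + 2 * g0
  have b12 : bf (D.F m') (P 1) (P 2) = 0 := by linear_combination g1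
  have b22 : bf (D.F m') (P 2) (P 2) = 0 := by linear_combination h9 + 2 * g2
  have h4 : x = fun q => ∑ i : Fin 3, x (t i) * P i q := by
    funext q
    rw [H.ch.xP q]
    exact Finset.sum_congr rfl fun i _ => mul_comm _ _
  have hx0 : x (t 0) = 1 := by rw [H.ch.t0]; exact H.hj0
  have h5 : ∀ v, bf (D.F m') x v = bf (D.F m') (P 0) v + x (t 1) * bf (D.F m') (P 1) v +
      x (t 2) * bf (D.F m') (P 2) v := by
    intro v
    have : bf (D.F m') x v = ∑ i : Fin 3, x (t i) * bf (D.F m') (P i) v := by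
      conv_lhs => rw [h4]
      exact bf_lin_left hF v Finset.univ (fun i => x (t i)) P
    rw [this, Fin.sum_univ_three, hx0, one_mul]
  have b21 : bf (D.F m') (P 2) (P 1) = 0 := by rw [bf_symm hF, b12]
  have b01 : bf (D.F m') (P 0) (P 1) = 0 := by
    have := h5 (P 1)
    rw [ha, b11, b21] at this
    linear_combination -this
  have b02 : bf (D.F m') (P 0) (P 2) = 0 := by
    have := h5 (P 2)
    rw [hb, b12, b22] at this
    linear_combination -this
  have b10 : bf (D.F m') (P 1) (P 0) = 0 := by rw [bf_symm hF, b01]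
  have b20 : bf (D.F m') (P 2) (P 0) = 0 := by rw [bf_symm hF, b02]
  have b00 : bf (D.F m') (P 0) (P 0) = 0 := by
    have h7 := quad_frame hF P (fun i => x (t i))
    rw [← h4, H.h0, hx0, b01, b02, b11, b12, b22] at h7
    linear_combination -h7
  have hall : ∀ i j : Fin 3, bf (D.F m') (P i) (P j) = 0 := by
    intro i j
    fin_cases i <;> fin_cases j <;> assumption
  exact hall

end

end Pool.Agent.T2C.H53
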