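import Pool.Agent.Lib.MP_c7af3c_ag.T2C.H53.Alg
import Pool.Agent.Lib.MP_c7af3c_ag.T2C.H53.Qua
import Pool.Agent.Lib.MP_c7af3c_ag.T2C.H53.Fin1
import Pool.Agent.Lib.MP_c7af3c_ag.T2C.H49.Fin2

/-!
# MP_c7af3c_ag, project T2C, row BETA: the assembly (helper53)
-/

set_option autoImplicit false

namespace Pool.Agent.T2C.H53

open MvPolynomial Pool.Agent.Gen Pool.Agent.Sharp Pool.Agent.Edge
open Pool.Agent.T2 (Fk Rac lnf Sizes Sit)

/-- Row BETA from the sub-row KRO. -/
theorem beta_of (kro : KroStatement) : BetaStatement := by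
  classical
  intro loc _ _ Ω _ _ k Γ _ S n c d D x j0 hn hd h2 hc hS hB line t P ch van
  have H : BetH D x j0 t P :=
    { hn := hn
      hd := hd
      d2 := h2
      c2 := hc
      hj0 := hS.hj0
      h0 := hS.h0
      comm := hS.comm
      w0 := fun p q => hB _ (Or.inl ⟨p, q, rfl⟩)
      wF := by
        intro m m' hm
        refine hB _ (Or.inr ⟨_, fun m'' => ?_, fun m'' => ?_, rfl⟩)
        · by_cases h : m'' = m
          · subst h
            rw [Pi.single_eq_same]
            refine ⟨?_, fun I => ?_⟩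
            · have h1 := (isHomogeneous_X_pow (R := Ω) j0 (d m'' - d m')).mul (D.hom m')
              rwa [Nat.sub_add_cancel hm] at h1
            · have h1 : (X j0 ^ (d m'' - d m') : MvPolynomial (Fin (n + 1)) Ω) =
                  monomial (Finsupp.single j0 (d m'' - d m')) 1 := X_pow_eq_monomial
              rw [h1, coeff_monomial_mul']
              split_ifs
              · rw [one_mul]
                exact hS.kF _ _
              · exact k.zero_mem
          · rw [Pi.single_eq_of_ne h]
            exact ⟨isHomogeneous_zero _ _ _, fun I => by rw [coeff_zero]; exact k.zero_mem⟩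
        · by_cases h : m'' = m
          · subst h
            rw [Pi.single_eq_same, map_mul, hS.h0, mul_zero]
          · rw [Pi.single_eq_of_ne h, map_zero]
      line := line
      ch := ch
      van := van }
  rcases kro alg loc Ω k Γ S n c d D x j0 t P hS H with h | ⟨m1, ω, τ, T, hK⟩
  · exact h
  obtain ⟨q1, q2⟩ := qua Ω n c d D x j0 t P H m1 ω τ T hK
  by_cases hm2 : ∃ m2, m1 ≠ m2 ∧ d m2 = 2
  · obtain ⟨m2, hne, hm2⟩ := hm2
    exact H49.fin2 Ω n c d D t P hn hd h2 ch.Pt q1 m1 m2 hne hK.d1 hm2
  · exfalso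
    have h3 : ∀ m, m ≠ m1 → 3 ≤ d m := by
      intro m hm
      have h4 := h2 m
      have h5 : d m ≠ 2 := fun h => hm2 ⟨m, hm.symm, h⟩
      omega
    refine fin1 Ω k n c d D x j0 t P H hS.kF hS.kalg hS.xk m1 hK.d1 h3 (q1 m1 hK.d1) ?_
    intro v hv i
    have h4 := q2 v hv i
    rw [Finset.sum_eq_single m1] at h4
    · rw [hK.ω1, one_mul] at h4
      exact h4
    · intro m _ hm
      rw [hK.ω0 m (h3 m hm), zero_mul]
    · intro h; exact absurd (Finset.mem_univ m1) h

end Pool.Agent.T2C.H53
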