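import Pool.Agent.Lib.MP_c7af3c_ag.T2C.BetaI
import Pool.Agent.Lib.MP_c7af3c_ag.T2C.H26.Seam
import Pool.Agent.Lib.MP_c7af3c_ag.T2.H6.Sub
import Pool.Agent.Lib.MP_c7af3c_ag.T2.H54.Basic

/-!
# MP_c7af3c_ag, project T2C, row BETA: tools (helper53)
-/

set_option autoImplicit false

namespace Pool.Agent.T2C.H53

open MvPolynomial Pool.Agent.Gen Pool.Agent.Sharp Pool.Agent.Edge
open Pool.Agent.Sharp.H75 (dco DG dco_mul dco_add dco_sum dco_X dco_C coeff_dco dco_hom)

section

variable {K : Type} [Field K] {n : ℕ}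

/-- the polar form -/
noncomputable def bf (F : MvPolynomial (Fin (n + 1)) K) (u v : Fin (n + 1) → K) : K :=
  ∑ p, eval u (pderiv p F) * v p

theorem exists_single {N : ℕ} {s : Fin N →₀ ℕ} (hs : s.degree = 1) :
    ∃ j, s = Finsupp.single j 1 := by
  have h : ∑ i, s i = 1 := by
    rw [← hs, Finsupp.degree_eq_sum]
  obtain ⟨j, hj⟩ : ∃ j, s j ≠ 0 := by
    by_contra hc
    push Not at hc
    rw [Finset.sum_eq_zero fun i _ => hc i] at h
    exact absurd h (by norm_num)
  have h1 := Finset.add_sum_erase Finset.univ (fun i => s i) (Finset.mem_univ j)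
  have h2 : ∑ i ∈ Finset.univ.erase j, s i = 0 := by omega
  rw [Finset.sum_eq_zero_iff] at h2
  refine ⟨j, Finsupp.ext fun i => ?_⟩
  by_cases hij : i = j
  · subst hij
    rw [Finsupp.single_eq_same]
    omega
  · rw [Finsupp.single_eq_of_ne hij]
    exact h2 i (Finset.mem_erase.2 ⟨hij, Finset.mem_univ i⟩)

/-- a linear form -/
theorem lin_rep {N : ℕ} {l : MvPolynomial (Fin N) K} (hl : l.IsHomogeneous 1) :
    l = ∑ j, C (coeff (Finsupp.single j 1) l) * X j := by
  classical
  ext s
  rw [coeff_sum]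
  simp only [coeff_C_mul, coeff_X]
  by_cases hs : s.degree = 1
  · obtain ⟨j, rfl⟩ := exists_single hs
    rw [Finset.sum_eq_single j]
    · simp
    · intro i _ hij
      rw [if_neg, mul_zero]
      intro h
      exact hij (Finsupp.single_left_injective one_ne_zero h)
    · intro h
      exact absurd (Finset.mem_univ j) h
  · rw [hl.coeff_eq_zero hs, Finset.sum_eq_zero]
    intro i _
    rw [if_neg, mul_zero]
    rintro rfl
    exact hs (by simp)

theorem lin_eval {N : ℕ} {l : MvPolynomial (Fin N) K} (hl : l.IsHomogeneous 1)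
    (u : Fin N → K) : eval u l = ∑ j, coeff (Finsupp.single j 1) l * u j := by
  conv_lhs => rw [lin_rep hl]
  rw [map_sum]
  refine Finset.sum_congr rfl fun j _ => ?_
  rw [map_mul, eval_C, eval_X]

/-- linearity -/
theorem lin_comb {N : ℕ} {l : MvPolynomial (Fin N) K} (hl : l.IsHomogeneous 1)
    {ι : Type} (s : Finset ι) (a : ι → K) (u : ι → Fin N → K) :
    eval (fun q => ∑ i ∈ s, a i * u i q) l = ∑ i ∈ s, a i * eval (u i) l := by
  rw [lin_eval hl]
  simp only [lin_eval hl, Finset.mul_sum]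
  rw [Finset.sum_comm]
  exact Finset.sum_congr rfl fun i _ => Finset.sum_congr rfl fun j _ => by ring

/-- a constant form -/
theorem const_eval {σ : Type} {B : MvPolynomial σ K} (hB : B.IsHomogeneous 0) (u v : σ → K) :
    eval u B = eval v B := by
  classical
  have h : B = C (coeff 0 B) := by
    ext s
    rw [coeff_C]
    split_ifs with hs
    · rw [← hs]
    · refine hB.coeff_eq_zero fun h => hs ?_
      exact ((Finsupp.degree_eq_zero_iff s).1 h).symm
  rw [h, eval_C, eval_C]

theorem pd_comm {N : ℕ} (p q : Fin N) (G : MvPolynomial (Fin N) K) :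
    pderiv p (pderiv q G) = pderiv q (pderiv p G) := by
  classical
  ext J
  rw [coeff_pderiv, coeff_pderiv, coeff_pderiv, coeff_pderiv, add_right_comm]
  by_cases h : p = q
  · subst h; rfl
  · simp only [Finsupp.add_apply, Finsupp.single_apply, if_neg h, if_neg (Ne.symm h), add_zero]
    ring

theorem bf_lin (F : MvPolynomial (Fin (n + 1)) K) (u : Fin (n + 1) → K)
    {ι : Type} (s : Finset ι) (a : ι → K) (v : ι → Fin (n + 1) → K) :
    bf F u (fun q => ∑ i ∈ s, a i * v i q) = ∑ i ∈ s, a i * bf F u (v i) := by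
  unfold bf
  simp only [Finset.mul_sum]
  rw [Finset.sum_comm]
  exact Finset.sum_congr rfl fun i _ => Finset.sum_congr rfl fun j _ => by ring

/-- the polar form of a quadric is symmetric -/
theorem bf_symm {F : MvPolynomial (Fin (n + 1)) K} (hF : F.IsHomogeneous 2)
    (u v : Fin (n + 1) → K) : bf F u v = bf F v u := by
  have h1 : ∀ p q, coeff (Finsupp.single q 1) (pderiv p F) =
      coeff (Finsupp.single p 1) (pderiv q F) := by
    intro p q
    have hp : (pderiv p F).IsHomogeneous 1 := hF.pderiv (i := p)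
    have hq : (pderiv q F).IsHomogeneous 1 := hF.pderiv (i := q)
    have e : ∀ (l : MvPolynomial (Fin (n + 1)) K), l.IsHomogeneous 1 → ∀ r,
        coeff (Finsupp.single r 1) l = eval (0 : Fin (n + 1) → K) (pderiv r l) := by
      intro l hl r
      conv_rhs => rw [lin_rep hl]
      rw [map_sum, map_sum, Finset.sum_eq_single r]
      · rw [pderiv_C_mul, pderiv_X_self, mul_one, eval_C]
      · intro j _ hj
        rw [pderiv_C_mul, pderiv_X_of_ne hj, mul_zero, map_zero]
      · intro h
        exact absurd (Finset.mem_univ r) h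
    rw [e _ hp, e _ hq]
    rw [pd_comm q p]
  unfold bf
  have h2 : ∀ (u v : Fin (n + 1) → K), ∑ p, eval u (pderiv p F) * v p =
      ∑ p, ∑ q, coeff (Finsupp.single q 1) (pderiv p F) * u q * v p := by
    intro u v
    refine Finset.sum_congr rfl fun p _ => ?_
    rw [lin_eval (hF.pderiv (i := p)), Finset.sum_mul]
  rw [h2, h2, Finset.sum_comm]
  refine Finset.sum_congr rfl fun p _ => Finset.sum_congr rfl fun q _ => ?_
  rw [h1]
  ring

theorem bf_lin_left {F : MvPolynomial (Fin (n + 1)) K} (hF : F.IsHomogeneous 2)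
    (v : Fin (n + 1) → K) {ι : Type} (s : Finset ι) (a : ι → K) (u : ι → Fin (n + 1) → K) :
    bf F (fun q => ∑ i ∈ s, a i * u i q) v = ∑ i ∈ s, a i * bf F (u i) v := by
  rw [bf_symm hF, bf_lin]
  exact Finset.sum_congr rfl fun i _ => by rw [bf_symm hF]

/-- Euler -/
theorem bf_self {F : MvPolynomial (Fin (n + 1)) K} {e : ℕ} (hF : F.IsHomogeneous e)
    (u : Fin (n + 1) → K) : bf F u u = e * eval u F := by
  have h := congrArg (eval u) hF.sum_X_mul_pderiv
  rw [map_sum, map_nsmul, nsmul_eq_mul] at h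
  rw [← h]
  unfold bf
  refine Finset.sum_congr rfl fun p _ => ?_
  rw [map_mul, eval_X, mul_comm]

end

/-! ### the maps `V` -/

section

variable {K : Type} [Field K] {n c : ℕ} {d : Fin c → ℕ} {D : DSys K n c d}
  {x : Fin (n + 1) → K} {j0 : Fin (n + 1)} {t : Fin (2 + 1) → Fin (n + 1)}
  {P : Fin (2 + 1) → Fin (n + 1) → K}

theorem V_j0 (hx : x j0 = 1) (m : Fin c) (G : MvPolynomial (Fin (n + 1)) K) :
    D.V x m G j0 = 0 := by
  rw [D.V_apply]
  refine Finset.sum_eq_zero fun I _ => ?_
  rw [hx, Derivation.map_one_eq_zero, mul_zero]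

theorem nf_hom (i : Fin 2) : (nf x j0 t i).IsHomogeneous 1 := hom_lf x j0 _

theorem nf_eval (hx : x j0 = 1) (i : Fin 2) : eval x (nf x j0 t i) = 0 := eval_lf x hx _

theorem lam_hom (f : Fin (n + 1)) : (lam t P f).IsHomogeneous 1 := by
  unfold lam
  refine (isHomogeneous_X K f).sub (IsHomogeneous.sum _ _ _ fun i _ => ?_)
  have h := (isHomogeneous_C (Fin (n + 1)) (P i f)).mul (isHomogeneous_X K (t i))
  rwa [zero_add] at h

theorem lf_dec (hx : x j0 = 1) (ch : Cht x j0 t P) (a : Fin (n + 1)) :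
    lf x j0 a = lam t P a + (C (P 1 a) * nf x j0 t 0 + C (P 2 a) * nf x j0 t 1) := by
  unfold nf lf lam
  have h1 := ch.xP a
  rw [Fin.sum_univ_three, ch.t0, hx, mul_one] at h1
  rw [Fin.sum_univ_three, ch.t0, h1]
  simp only [Fin.succ_zero_eq_one, Fin.succ_one_eq_two, map_add, map_mul]
  ring

/-- the coordinates `j0` of the vectors of the frame -/
theorem P_j0 (ch : Cht x j0 t P) : P 1 j0 = 0 ∧ P 2 j0 = 0 := by
  constructor
  · have := ch.Pt 1 0
    rw [ch.t0] at this
    exact this
  · have := ch.Pt 2 0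
    rw [ch.t0] at this
    exact this

/-- the hypothesis on the plane, for one component -/
theorem van1 (van : ∀ A : TP K n c, Adm d A → ∀ f, VT D x (mulT A (lam t P f)) = 0)
    {m : Fin c} {e : ℕ} (he : d m = e + 1) {A : MvPolynomial (Fin (n + 1)) K}
    (hA : A.IsHomogeneous e) (f : Fin (n + 1)) : D.V x m (A * lam t P f) = 0 := by
  have h4 := van (Pi.single m A) (by
    intro m' I hI
    by_cases hm : m' = m
    · subst hm
      rw [Pi.single_eq_same] at hI
      have := hA hI
      rw [he, ← this, Finsupp.degree_eq_weight_one]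
      rfl
    · rw [Pi.single_eq_of_ne hm, coeff_zero] at hI
      exact absurd rfl hI) f
  have h5 : mulT (Pi.single m A) (lam t P f) = Pi.single m (A * lam t P f) := by
    funext m'
    unfold mulT
    by_cases hm : m' = m
    · subst hm; rw [Pi.single_eq_same, Pi.single_eq_same]
    · rw [Pi.single_eq_of_ne hm, Pi.single_eq_of_ne hm, zero_mul]
  rw [h5, H26.VT_single] at h4
  exact h4

/-- the variation of the multiples of a linear form which vanishes at `x` -/
theorem V_lf (hx : x j0 = 1) (ch : Cht x j0 t P)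
    (van : ∀ A : TP K n c, Adm d A → ∀ f, VT D x (mulT A (lam t P f)) = 0)
    {m : Fin c} {e : ℕ} (he : d m = e + 1) {A : MvPolynomial (Fin (n + 1)) K}
    (hA : A.IsHomogeneous e) (a : Fin (n + 1)) :
    D.V x m (A * lf x j0 a) = P 1 a • D.V x m (A * nf x j0 t 0) +
      P 2 a • D.V x m (A * nf x j0 t 1) := by
  rw [lf_dec hx ch a, mul_add, map_add, van1 van he hA a, zero_add, mul_add, map_add]
  have h : ∀ c (i : Fin 2), A * (C c * nf x j0 t i) = c • (A * nf x j0 t i) := by
    intro c i
    rw [smul_eq_C_mul]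
    ring
  rw [h, h, map_smul, map_smul]

theorem aeval_pt [CharZero K] {G : MvPolynomial (Fin (n + 1)) K} {e : ℕ}
    (hG : G.IsHomogeneous e) :
    aeval (fun k => C (x k) * X j0 : Fin (n + 1) → MvPolynomial (Fin (n + 1)) K) G =
      C (eval x G) * X j0 ^ e := by
  apply MvPolynomial.funext
  intro z
  have h1 : eval z (aeval (fun k => C (x k) * X j0 :
      Fin (n + 1) → MvPolynomial (Fin (n + 1)) K) G) = eval (fun k => z j0 * x k) G := by
    rw [aeval_def, ← coe_eval₂Hom, ← RingHom.comp_apply, comp_eval₂Hom, coe_eval₂Hom]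
    rw [eval, coe_eval₂Hom]
    have h2 : ((eval₂Hom (RingHom.id K) z).comp (algebraMap K (MvPolynomial (Fin (n + 1)) K))) =
        RingHom.id K := by
      ext a
      simp
    have h3 : (fun i => (eval₂Hom (RingHom.id K) z) (C (x i) * X j0)) =
        (fun k => z j0 * x k) := by
      funext k
      simp only [map_mul, coe_eval₂Hom, eval₂_X, eval₂_C, RingHom.id_apply]
      ring
    simp only [coe_eval₂Hom] at h3
    rw [h2, h3]
    rfl
  rw [h1, Sharp.H54.eval_smul_form hG, map_mul, eval_C, map_pow, eval_X]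
  ring

/-- a linear statement on the forms which vanish at `x` -/
theorem of_pt [CharZero K] {e : ℕ} {Y : Type} [AddCommGroup Y] [Module K Y]
    (T : MvPolynomial (Fin (n + 1)) K →ₗ[K] Y) (N : Submodule K Y)
    (h : ∀ k B, B.IsHomogeneous e → T (B * lf x j0 k) ∈ N)
    {G : MvPolynomial (Fin (n + 1)) K} (hG : G.IsHomogeneous (e + 1)) (h0 : eval x G = 0) :
    T G ∈ N := by
  refine T2.H6.of_products (L := fun k => C (x k) * X j0) ?_ T N ?_ hG ?_
  · intro k
    have h := (isHomogeneous_C (Fin (n + 1)) (x k)).mul (isHomogeneous_X K j0)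
    rwa [zero_add] at h
  · intro k B hB
    rw [mul_comm]
    exact h k B hB
  · rw [aeval_pt hG, h0, C_0, zero_mul]

end

end Pool.Agent.T2C.H53
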